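import Mathlib

/-!
# Algebra of the four-point functions of two ladders of equal frequency
-/

set_option autoImplicit false
open Filter Topology

namespace Pool.Agent.R314.JN

lemma constZ {V : Type*} {f : ℤ → V} (h : ∀ a, f (a + 1) = f a) (a : ℤ) : f a = f 0 := by
  induction a using Int.induction_on with
  | zero => rfl
  | succ i ih => rw [h, ih]
  | pred i ih =>
    have := h (-(i : ℤ) - 1)
    rw [sub_add_cancel] at this
    rw [← this, ih]

section

variable {V : Type*} [AddCommGroup V] [Module ℝ V]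

lemma aff {f : ℤ → V} (h : ∀ a, f (a + 1) + f (a - 1) = (2 : ℝ) • f a) {c : ℤ}
    (s : ∀ a, f (c - a) = f a) (a : ℤ) : f a = f 0 := by
  have h1 : ∀ a, f (a + 1) - f a = f 1 - f 0 := by
    intro a
    have := constZ (f := fun a => f (a + 1) - f a) (fun a => by
      have h2 := h (a + 1)
      rw [add_sub_cancel_right, two_smul] at h2
      show f (a + 1 + 1) - f (a + 1) = f (a + 1) - f a
      have h3 : f (a + 1 + 1) = f (a + 1) + f (a + 1) - f a := by
        rw [← h2]; abel
      rw [h3]; abel) a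
    simpa using this
  have h2 : f 1 - f 0 = 0 := by
    have e1 := h1 (c - 1)
    rw [sub_add_cancel] at e1
    have s0 := s 0
    have s1 := s 1
    rw [sub_zero] at s0
    rw [s0, s1] at e1
    -- e1 : f 0 - f 1 = f 1 - f 0
    have e2 : (2 : ℝ) • (f 1 - f 0) = 0 := by
      rw [two_smul]
      nth_rewrite 1 [← e1]
      abel
    rcases smul_eq_zero.1 e2 with h | h
    · norm_num at h
    · exact h
  exact constZ (fun a => by
    have := h1 a
    rw [h2] at this
    exact sub_eq_zero.1 this) a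

lemma mixed {g : ℤ → ℤ → V} (h : ∀ p q, g (p + 1) (q + 1) + g p q = g (p + 1) q + g p (q + 1))
    (p q : ℤ) : g p q = g p 0 + g 0 q - g 0 0 := by
  have h1 : ∀ p q, g p (q + 1) - g p q = g 0 (q + 1) - g 0 q := by
    intro p q
    refine constZ (f := fun p => g p (q + 1) - g p q) (fun p => ?_) p
    have h2 := h p q
    show g (p + 1) (q + 1) - g (p + 1) q = g p (q + 1) - g p q
    have h3 : g (p + 1) (q + 1) = g (p + 1) q + g p (q + 1) - g p q := by
      rw [← h2]; abel
    rw [h3]; abel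
  have h2 := constZ (f := fun q => g p q - g 0 q) (fun q => by
    have h3 := h1 p q
    show g p (q + 1) - g 0 (q + 1) = g p q - g 0 q
    have h4 : g p (q + 1) = g p q + (g 0 (q + 1) - g 0 q) := by rw [← h3]; abel
    rw [h4]; abel) q
  have h3 : g p q = g 0 q + (g p 0 - g 0 0) := by
    have : g p q - g 0 q = g p 0 - g 0 0 := h2
    rw [← this]; abel
  rw [h3]; abel

/-- the relation of the four-point functions -/
theorem relV (r : ℤ → ℤ → ℤ → ℤ → V)
    (s12 : ∀ a b c d, r a b c d = r b a c d) (s34 : ∀ a b c d, r a b c d = r a b d c)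
    (cj : ∀ a b c d, a + b + c + d = 0 → r (-a) (-b) (-c) (-d) = r a b c d)
    (N : ∀ a b c d, r (a + 1) (b + 1) (c - 1) (d - 1) + r (a - 1) (b - 1) (c + 1) (d + 1) =
      (2 : ℝ) • r a b c d)
    (T : ∀ a b c d, r (a + 1) b c d + r a (b + 1) c d + r a b (c + 1) d + r a b c (d + 1) = 0)
    (k l : ℤ) : ((-1 : ℝ) ^ (k + l)) • (r k l (-k) (-l) + r k (-l) (-k) l) =
      r 0 0 0 0 + r k (-k) l (-l) := by
  have e2 : ∀ m : ℤ, ((-1 : ℝ) ^ (m + m)) = 1 := fun m => (Even.neg_one_zpow ⟨m, rfl⟩)
  -- independence of the first index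
  have c1 : ∀ p q a, r a (a - p - q) (p - a) (q - a) = r 0 (0 - p - q) (p - 0) (q - 0) := by
    intro p q a
    refine aff (f := fun a => r a (a - p - q) (p - a) (q - a)) (c := p + q) (fun a => ?_)
      (fun a => ?_) a
    · have := N a (a - p - q) (p - a) (q - a)
      rw [← this]
      show r (a + 1) (a + 1 - p - q) (p - (a + 1)) (q - (a + 1)) +
        r (a - 1) (a - 1 - p - q) (p - (a - 1)) (q - (a - 1)) = _
      congr 2 <;> ring
    · have := cj a (a - p - q) (p - a) (q - a) (by ring)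
      show r (p + q - a) (p + q - a - p - q) (p - (p + q - a)) (q - (p + q - a)) = _
      rw [← this, s12 (-a), s34 (-(a - p - q))]
      congr 1 <;> ring
  set R : ℤ → ℤ → V := fun p q => r 0 (0 - p - q) (p - 0) (q - 0) with hR
  set Z : ℤ → ℤ → V := fun p q => ((-1 : ℝ) ^ (p + q)) • R p q with hZ
  have t1 : ∀ p q, R (p + 1) (q + 1) + R p q + R (p + 1) q + R p (q + 1) = 0 := by
    intro p q
    have h1 := T 0 (-p - q - 1) p q
    have h2 := c1 (p + 1) (q + 1) 1
    have g1 : r (0 + 1) (-p - q - 1) p q = R (p + 1) (q + 1) := by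
      rw [hR]
      simp only
      rw [← h2]
      congr 1 <;> ring
    have g2 : r 0 (-p - q - 1 + 1) p q = R p q := by
      rw [hR]
      simp only
      congr 1 <;> ring
    have g3 : r 0 (-p - q - 1) (p + 1) q = R (p + 1) q := by
      rw [hR]
      simp only
      congr 1 <;> ring
    have g4 : r 0 (-p - q - 1) p (q + 1) = R p (q + 1) := by
      rw [hR]
      simp only
      congr 1 <;> ring
    rw [g1, g2, g3, g4] at h1
    exact h1
  have t2 : ∀ p q, Z (p + 1) (q + 1) + Z p q = Z (p + 1) q + Z p (q + 1) := by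
    intro p q
    have h1 := t1 p q
    have x1 : ((-1 : ℝ) ^ (p + 1 + (q + 1))) = (-1 : ℝ) ^ (p + q) := by
      rw [show p + 1 + (q + 1) = p + q + (1 + 1) by ring, zpow_add₀ (by norm_num), e2, mul_one]
    have x2 : ((-1 : ℝ) ^ (p + 1 + q)) = -(-1 : ℝ) ^ (p + q) := by
      rw [show p + 1 + q = p + q + 1 by ring, zpow_add₀ (by norm_num), zpow_one]; ring
    have x3 : ((-1 : ℝ) ^ (p + (q + 1))) = -(-1 : ℝ) ^ (p + q) := by
      rw [show p + (q + 1) = p + q + 1 by ring, zpow_add₀ (by norm_num), zpow_one]; ring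
    simp only [hZ]
    rw [x1, x2, x3, neg_smul, neg_smul, ← smul_add, ← neg_add, ← smul_add, ← smul_neg]
    congr 1
    have : R (p + 1) (q + 1) + R p q = - (R (p + 1) q + R p (q + 1)) := by
      rw [eq_neg_iff_add_eq_zero, ← h1]; abel
    exact this
  have t3 := mixed t2
  have t4 : ∀ p, Z p 0 = Z 0 p := by
    intro p
    simp only [hZ, hR]
    rw [s34, add_comm p 0]
    congr 2 <;> ring
  have a1 : r k l (-k) (-l) = R 0 (k - l) := by
    rw [hR]
    simp only
    rw [← c1 0 (k - l) k]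
    congr 1 <;> ring
  have a2 : r k (-l) (-k) l = R 0 (k + l) := by
    rw [hR]
    simp only
    rw [← c1 0 (k + l) k]
    congr 1 <;> ring
  have a3 : r k (-k) l (-l) = R (k + l) (k - l) := by
    rw [hR]
    simp only
    rw [← c1 (k + l) (k - l) k]
    congr 1 <;> ring
  have a0 : r 0 0 0 0 = Z 0 0 := by
    simp only [hZ, hR]
    simp
  have b1 : ((-1 : ℝ) ^ (k + l)) • R 0 (k - l) = Z 0 (k - l) := by
    simp only [hZ]
    congr 1
    rw [show k + l = 0 + (k - l) + (l + l) by ring, zpow_add₀ (by norm_num), e2, mul_one]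
  have b2 : ((-1 : ℝ) ^ (k + l)) • R 0 (k + l) = Z 0 (k + l) := by
    simp only [hZ]
    rw [zero_add]
  have b3 : R (k + l) (k - l) = Z (k + l) (k - l) := by
    simp only [hZ]
    rw [show k + l + (k - l) = k + k by ring, e2, one_smul]
  rw [a1, a2, a3, a0, b3, smul_add, b1, b2, t3 (k + l) (k - l), t4 (k + l)]
  abel

end

/-- null sequences -/
def nullS : Submodule ℝ (ℕ → ℝ) where
  carrier := {s | Tendsto s atTop (𝓝 0)}
  add_mem' := fun {a b} ha hb => by
    have := Tendsto.add ha hb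
    rw [add_zero] at this
    exact this
  zero_mem' := tendsto_const_nhds
  smul_mem' := fun c s hs => by
    have := Tendsto.const_mul c hs
    rw [mul_zero] at this
    exact this

lemma mem_nullS {s : ℕ → ℝ} : s ∈ nullS ↔ Tendsto s atTop (𝓝 0) := Iff.rfl

/-- asymptotic form of the relation -/
theorem relN (r : ℤ → ℤ → ℤ → ℤ → ℕ → ℝ)
    (s12 : ∀ a b c d, r a b c d = r b a c d) (s34 : ∀ a b c d, r a b c d = r a b d c)
    (cj : ∀ a b c d, a + b + c + d = 0 → r (-a) (-b) (-c) (-d) = r a b c d)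
    (N : ∀ a b c d, Tendsto (fun n => r (a + 1) (b + 1) (c - 1) (d - 1) n +
      r (a - 1) (b - 1) (c + 1) (d + 1) n - 2 * r a b c d n) atTop (𝓝 0))
    (T : ∀ a b c d, Tendsto (fun n => r (a + 1) b c d n + r a (b + 1) c d n +
      r a b (c + 1) d n + r a b c (d + 1) n) atTop (𝓝 0)) (k l : ℤ) :
    Tendsto (fun n => (-1 : ℝ) ^ (k + l) * (r k l (-k) (-l) n + r k (-l) (-k) l n) -
      (r 0 0 0 0 n + r k (-k) l (-l) n)) atTop (𝓝 0) := by
  have key := relV (V := (ℕ → ℝ) ⧸ nullS) (fun a b c d => nullS.mkQ (r a b c d))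
    (fun a b c d => by simp only [s12 a b c d]) (fun a b c d => by
      show nullS.mkQ (r a b c d) = nullS.mkQ (r a b d c)
      rw [s34 a b c d])
    (fun a b c d h => by
      show nullS.mkQ (r (-a) (-b) (-c) (-d)) = nullS.mkQ (r a b c d)
      rw [cj a b c d h])
    (fun a b c d => by
      show nullS.mkQ (r (a + 1) (b + 1) (c - 1) (d - 1)) +
        nullS.mkQ (r (a - 1) (b - 1) (c + 1) (d + 1)) = (2 : ℝ) • nullS.mkQ (r a b c d)
      rw [← map_add, ← map_smul, ← sub_eq_zero, ← map_sub]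
      exact (Submodule.Quotient.mk_eq_zero _).2 (N a b c d))
    (fun a b c d => by
      show nullS.mkQ (r (a + 1) b c d) + nullS.mkQ (r a (b + 1) c d) +
        nullS.mkQ (r a b (c + 1) d) + nullS.mkQ (r a b c (d + 1)) = 0
      rw [← map_add, ← map_add, ← map_add]
      exact (Submodule.Quotient.mk_eq_zero _).2 (T a b c d)) k l
  rw [← map_add, ← map_smul, ← map_add, ← sub_eq_zero, ← map_sub] at key
  exact (Submodule.Quotient.mk_eq_zero _).1 key

end Pool.Agent.R314.JN
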