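import Mathlib

/-! Integration over pairs of points and over displacements. -/
set_option autoImplicit false
open MeasureTheory Filter Topology Complex

namespace Pool.Agent.R314.JN.Fub

/-- the open upper half plane -/
def HH : Set ℂ := {z | 0 < z.im}

/-- the isometry `z ↦ r z + b` -/
noncomputable def aff (r b : ℝ) (z : ℂ) : ℂ := r • z + (b : ℂ)

/-- correlation at the displacement `aff r b` -/
noncomputable def DD (α β : ℂ → ℝ) (p : ℝ × ℝ) : ℝ := ∫ z, z.im * α z * β (aff p.1 p.2 z)

variable {α β : ℂ → ℝ}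

lemma aff_im (r b : ℝ) (z : ℂ) : (aff r b z).im = r * z.im := by
  unfold aff; simp

lemma aff_re (r b : ℝ) (z : ℂ) : (aff r b z).re = r * z.re + b := by
  unfold aff; simp

lemma aff_cont : Continuous (fun q : ℂ × (ℝ × ℝ) => aff q.2.1 q.2.2 q.1) := by
  unfold aff
  have h1 : Continuous (fun q : ℂ × (ℝ × ℝ) => q.2.1 • q.1) :=
    (continuous_snd.fst).smul continuous_fst
  exact h1.add (continuous_ofReal.comp continuous_snd.snd)

/-- the displacement of a pair of points -/
noncomputable def dis (q : ℂ × ℂ) : ℂ × (ℝ × ℝ) :=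
  (q.1, (q.2.im / q.1.im, q.2.re - q.2.im / q.1.im * q.1.re))

lemma hc (cα : Continuous α) (cβ : Continuous β) :
    Continuous (fun q : ℂ × (ℝ × ℝ) => q.1.im * α q.1 * β (aff q.2.1 q.2.2 q.1)) :=
  ((continuous_im.comp continuous_fst).mul (cα.comp continuous_fst)).mul (cβ.comp aff_cont)

lemma hs (kα : HasCompactSupport α) (kβ : HasCompactSupport β) (sα : tsupport α ⊆ HH) :
    HasCompactSupport (fun q : ℂ × (ℝ × ℝ) => q.1.im * α q.1 * β (aff q.2.1 q.2.2 q.1)) := by
  have hd : ContinuousOn dis (tsupport α ×ˢ tsupport β) := by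
    have h1 : ContinuousOn (fun q : ℂ × ℂ => q.2.im / q.1.im) (tsupport α ×ˢ tsupport β) := by
      refine ContinuousOn.div (continuous_im.comp continuous_snd).continuousOn
        (continuous_im.comp continuous_fst).continuousOn fun q hq => ?_
      exact ne_of_gt (sα hq.1)
    exact continuous_fst.continuousOn.prodMk (h1.prodMk
      ((continuous_re.comp continuous_snd).continuousOn.sub
        (h1.mul (continuous_re.comp continuous_fst).continuousOn)))
  have hK : IsCompact (dis '' (tsupport α ×ˢ tsupport β)) :=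
    (kα.isCompact.prod kβ.isCompact).image_of_continuousOn hd
  refine HasCompactSupport.of_support_subset_isCompact hK fun q hq => ?_
  have h1 : α q.1 ≠ 0 := fun h => hq (by simp [h])
  have h2 : β (aff q.2.1 q.2.2 q.1) ≠ 0 := fun h => hq (by simp [h])
  have m1 : q.1 ∈ tsupport α := subset_tsupport _ h1
  have m2 : aff q.2.1 q.2.2 q.1 ∈ tsupport β := subset_tsupport _ h2
  have hy : q.1.im ≠ 0 := ne_of_gt (sα m1)
  refine ⟨(q.1, aff q.2.1 q.2.2 q.1), ⟨m1, m2⟩, ?_⟩
  unfold dis
  simp only [aff_im, aff_re]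
  have e1 : q.2.1 * q.1.im / q.1.im = q.2.1 := by field_simp
  rw [e1]
  ext <;> simp

lemma inner_int (cβ : Continuous β) (kβ : HasCompactSupport β) {z : ℂ} (hz : 0 < z.im) :
    ∫ p : ℝ × ℝ, β (aff p.1 p.2 z) = (z.im)⁻¹ * ∫ w, β w := by
  -- integrability on the plane of parameters
  have c1 : Continuous (fun p : ℝ × ℝ => β (aff p.1 p.2 z)) :=
    cβ.comp (aff_cont.comp (continuous_const.prodMk continuous_id))
  have k1 : HasCompactSupport (fun p : ℝ × ℝ => β (aff p.1 p.2 z)) := by
    have hd : Continuous (fun w : ℂ => (w.im / z.im, w.re - w.im / z.im * z.re)) := by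
      have h1 : Continuous (fun w : ℂ => w.im / z.im) := continuous_im.div_const _
      exact h1.prodMk (continuous_re.sub (h1.mul continuous_const))
    refine HasCompactSupport.of_support_subset_isCompact (kβ.isCompact.image hd) fun p hp => ?_
    refine ⟨aff p.1 p.2 z, subset_tsupport _ hp, ?_⟩
    simp only [aff_im, aff_re]
    have e1 : p.1 * z.im / z.im = p.1 := by field_simp
    rw [e1]
    ext <;> simp
  have i1 : Integrable (fun p : ℝ × ℝ => β (aff p.1 p.2 z)) :=
    c1.integrable_of_hasCompactSupport k1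
  have e1 : ∫ p : ℝ × ℝ, β (aff p.1 p.2 z) = ∫ r : ℝ, ∫ b : ℝ, β (aff r b z) := by
    have := integral_prod (fun p : ℝ × ℝ => β (aff p.1 p.2 z)) i1
    exact this
  have e2 : ∀ r : ℝ, ∫ b : ℝ, β (aff r b z) = ∫ b : ℝ, β ((b : ℂ) + (r * z.im : ℝ) * I) := by
    intro r
    have h := integral_add_right_eq_self (μ := (volume : Measure ℝ))
      (fun b : ℝ => β ((b : ℂ) + (r * z.im : ℝ) * I)) (r * z.re)
    rw [← h]
    congr 1; funext b
    congr 1
    unfold aff
    apply Complex.ext <;> simp; ring
  have e3 : ∫ w, β w = ∫ v : ℝ, ∫ b : ℝ, β ((b : ℂ) + (v : ℂ) * I) := by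
    have h1 := (Complex.volume_preserving_equiv_real_prod.symm).integral_comp
      (Complex.measurableEquivRealProd.symm.measurableEmbedding) β
    rw [← h1]
    have c2 : Continuous (fun p : ℝ × ℝ => β (Complex.measurableEquivRealProd.symm p)) := by
      have : Continuous (fun p : ℝ × ℝ => Complex.equivRealProdCLM.symm p) :=
        Complex.equivRealProdCLM.symm.continuous
      exact cβ.comp this
    have k2 : HasCompactSupport (fun p : ℝ × ℝ => β (Complex.measurableEquivRealProd.symm p)) := by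
      have := kβ.comp_homeomorph Complex.equivRealProdCLM.symm.toHomeomorph
      exact this
    have i2 : Integrable (fun p : ℝ × ℝ => β (Complex.measurableEquivRealProd.symm p))
        ((volume : Measure ℝ).prod (volume : Measure ℝ)) :=
      c2.integrable_of_hasCompactSupport k2
    have h2 := integral_prod_symm _ i2
    have h3 : ∫ p : ℝ × ℝ, β (Complex.measurableEquivRealProd.symm p) =
      ∫ v : ℝ, ∫ b : ℝ, β (Complex.measurableEquivRealProd.symm (b, v)) := h2
    rw [h3]
    congr 1; funext v; congr 1; funext b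
    congr 1
    apply Complex.ext <;> simp
  have e4 : ∫ r : ℝ, ∫ b : ℝ, β ((b : ℂ) + (r * z.im : ℝ) * I) =
      (z.im)⁻¹ * ∫ v : ℝ, ∫ b : ℝ, β ((b : ℂ) + (v : ℂ) * I) := by
    have := Measure.integral_comp_mul_right (fun v : ℝ => ∫ b : ℝ, β ((b : ℂ) + (v : ℂ) * I)) z.im
    rw [abs_of_pos (inv_pos.2 hz), smul_eq_mul] at this
    exact this
  rw [e1]
  simp only [e2]
  rw [e4, e3]

/-- **Fubini** for the displacements -/
lemma fubini (cα : Continuous α) (cβ : Continuous β) (kα : HasCompactSupport α)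
    (kβ : HasCompactSupport β) (sα : tsupport α ⊆ HH) :
    Integrable (DD α β) ∧ ∫ p, DD α β p = (∫ z, α z) * ∫ z, β z := by
  have hi : Integrable (fun q : ℂ × (ℝ × ℝ) => q.1.im * α q.1 * β (aff q.2.1 q.2.2 q.1))
      ((volume : Measure ℂ).prod (volume : Measure (ℝ × ℝ))) :=
    (hc cα cβ).integrable_of_hasCompactSupport (hs kα kβ sα)
  refine ⟨hi.integral_prod_right, ?_⟩
  have h1 := integral_prod_symm _ hi
  have h2 := integral_prod _ hi
  have h3 : ∫ p, DD α β p = ∫ z : ℂ, ∫ p : ℝ × ℝ, z.im * α z * β (aff p.1 p.2 z) := by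
    unfold DD
    rw [← h2, ← h1]
  rw [h3, ← integral_mul_const]
  congr 1; funext z
  rw [integral_const_mul]
  by_cases hz : z ∈ tsupport α
  · have hy : 0 < z.im := sα hz
    rw [inner_int cβ kβ hy]
    field_simp
  · rw [image_eq_zero_of_notMem_tsupport hz]; ring

end Pool.Agent.R314.JN.Fub
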