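import Pool.Agent.R314.JN.Low2

/-!
# Positivity of the correlations of the energies of two ladders
-/

set_option autoImplicit false
open MeasureTheory Filter Topology Complex
open scoped ContDiff

namespace Pool.Agent.R314.JN

open Pool.Agent.W745.RW Pool.Agent.TH294.RS Pool.Agent.Y265.HY

noncomputable section

section

variable {V : Type*} [AddCommGroup V] [Module ℝ V]

/-- independence of the shift -/
theorem shV (r : ℤ → ℤ → ℤ → ℤ → V)
    (s12 : ∀ a b c d, r a b c d = r b a c d) (s34 : ∀ a b c d, r a b c d = r a b d c)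
    (cj : ∀ a b c d, a + b + c + d = 0 → r (-a) (-b) (-c) (-d) = r a b c d)
    (N : ∀ a b c d, r (a + 1) (b + 1) (c - 1) (d - 1) + r (a - 1) (b - 1) (c + 1) (d + 1) =
      (2 : ℝ) • r a b c d)
    (a b c d s : ℤ) (h : a + b + c + d = 0) : r (a + s) (b + s) (c - s) (d - s) = r a b c d := by
  have c1 : ∀ p q a, r a (a - p - q) (p - a) (q - a) = r 0 (0 - p - q) (p - 0) (q - 0) := by
    intro p q a
    refine aff (f := fun a => r a (a - p - q) (p - a) (q - a)) (c := p + q) (fun a => ?_)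
      (fun a => ?_) a
    · have := N a (a - p - q) (p - a) (q - a)
      rw [← this]
      show r (a + 1) (a + 1 - p - q) (p - (a + 1)) (q - (a + 1)) +
        r (a - 1) (a - 1 - p - q) (p - (a - 1)) (q - (a - 1)) = _
      congr 2 <;> ring
    · have := cj a (a - p - q) (p - a) (q - a) (by ring)
      show r (p + q - a) (p + q - a - p - q) (p - (p + q - a)) (q - (p + q - a)) = _
      rw [← this, s12 (-a), s34 (-(a - p - q))]
      congr 1 <;> ring
  have h1 := c1 (a + c) (a + d) (a + s)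
  have h2 := c1 (a + c) (a + d) a
  have e1 : r (a + s) (a + s - (a + c) - (a + d)) (a + c - (a + s)) (a + d - (a + s)) =
      r (a + s) (b + s) (c - s) (d - s) := by
    have g1 : a + s - (a + c) - (a + d) = b + s := by omega
    have g2 : a + c - (a + s) = c - s := by ring
    have g3 : a + d - (a + s) = d - s := by ring
    rw [g1, g2, g3]
  have e2 : r a (a - (a + c) - (a + d)) (a + c - a) (a + d - a) = r a b c d := by
    have g1 : a - (a + c) - (a + d) = b := by omega
    have g2 : a + c - a = c := by ring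
    have g3 : a + d - a = d := by ring
    rw [g1, g2, g3]
  rw [← e1, ← e2, h1, h2]

end

/-- asymptotic form -/
theorem shN (r : ℤ → ℤ → ℤ → ℤ → ℕ → ℝ)
    (s12 : ∀ a b c d, r a b c d = r b a c d) (s34 : ∀ a b c d, r a b c d = r a b d c)
    (cj : ∀ a b c d, a + b + c + d = 0 → r (-a) (-b) (-c) (-d) = r a b c d)
    (N : ∀ a b c d, Tendsto (fun n => r (a + 1) (b + 1) (c - 1) (d - 1) n +
      r (a - 1) (b - 1) (c + 1) (d + 1) n - 2 * r a b c d n) atTop (𝓝 0))
    (a b c d s : ℤ) (h : a + b + c + d = 0) :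
    Tendsto (fun n => r (a + s) (b + s) (c - s) (d - s) n - r a b c d n) atTop (𝓝 0) := by
  have key := shV (V := (ℕ → ℝ) ⧸ nullS) (fun a b c d => nullS.mkQ (r a b c d))
    (fun a b c d => by simp only [s12 a b c d]) (fun a b c d => by
      show nullS.mkQ (r a b c d) = nullS.mkQ (r a b d c)
      rw [s34 a b c d])
    (fun a b c d h => by
      show nullS.mkQ (r (-a) (-b) (-c) (-d)) = nullS.mkQ (r a b c d)
      rw [cj a b c d h])
    (fun a b c d => by
      show nullS.mkQ (r (a + 1) (b + 1) (c - 1) (d - 1)) +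
        nullS.mkQ (r (a - 1) (b - 1) (c + 1) (d + 1)) = (2 : ℝ) • nullS.mkQ (r a b c d)
      rw [← map_add, ← map_smul, ← sub_eq_zero, ← map_sub]
      exact (Submodule.Quotient.mk_eq_zero _).2 (N a b c d)) a b c d s h
  rw [← sub_eq_zero, ← map_sub] at key
  exact (Submodule.Quotient.mk_eq_zero _).1 key

variable {Ω : Set ℂ} {lam mu : ℕ → ℝ} {u v : ℕ → ℂ → ℝ} {ρ : ℂ → ℝ}

/-- the sign `(-1)^p` -/
def sg (p : ℤ) : ℝ := (-1) ^ p.natAbs

lemma sg_sq (p : ℤ) : sg p * sg p = 1 := by
  unfold sg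
  rw [← mul_pow]; norm_num

lemma sg_even (p q : ℤ) (h : Even (p - q)) : sg p = sg q := by
  unfold sg
  obtain ⟨r, hr⟩ := h
  rcases Nat.even_or_odd p.natAbs with h1 | h1
  · have h2 : Even q.natAbs := by rw [Nat.even_iff] at h1 ⊢; omega
    rw [h1.neg_one_pow, h2.neg_one_pow]
  · have h2 : Odd q.natAbs := by rw [Nat.odd_iff] at h1 ⊢; omega
    rw [h1.neg_one_pow, h2.neg_one_pow]

lemma sg2 (p q a b : ℤ) (h : Even ((p + q) - (a + b))) : sg p * sg q = sg a * sg b := by
  unfold sg
  obtain ⟨r, hr⟩ := h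
  rw [← pow_add, ← pow_add]
  rcases Nat.even_or_odd (p.natAbs + q.natAbs) with h1 | h1
  · have h2 : Even (a.natAbs + b.natAbs) := by rw [Nat.even_iff] at h1 ⊢; omega
    rw [h1.neg_one_pow, h2.neg_one_pow]
  · have h2 : Odd (a.natAbs + b.natAbs) := by rw [Nat.odd_iff] at h1 ⊢; omega
    rw [h1.neg_one_pow, h2.neg_one_pow]

/-- the Gaussian value -/
def g2 (a b c d : ℤ) : ℝ := (CC a b * CC c d).re

lemma CC_pair (p : ℤ) : CC p (-p) = ((sg p : ℝ) : ℂ) := by
  unfold CC sg
  rw [if_pos (by ring)]; push_cast; rfl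

lemma CC_pair' (p : ℤ) : CC (-p) p = ((sg p : ℝ) : ℂ) := by
  unfold CC sg
  rw [if_pos (by ring), Int.natAbs_neg]; push_cast; rfl

/-- correlation of the energies -/
def E2 (ρ : ℂ → ℝ) (lam mu : ℝ) (u v : ℂ → ℝ) (p q : ℤ) : ℝ :=
  ∫ z, ρ z * (‖FW lam u p z‖ ^ 2 * ‖FW mu v q z‖ ^ 2)

lemma E2_jr (H : QS Ω lam u) (H' : QS Ω mu v) (hΩ : IsOpen Ω) (hU : ∀ z ∈ Ω, 0 < z.im)
    (hρ : TF Ω ρ) (n : ℕ) (p q : ℤ) :
    jr ρ lam mu u v p (-p) (-q) q n = sg p * sg q * E2 ρ (lam n) (mu n) (u n) (v n) p q := by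
  rw [jr_eq H H' hΩ hU hρ]
  unfold E2
  rw [← integral_const_mul]
  congr 1; funext z
  by_cases hz : z ∈ Ω
  · unfold q2
    rw [H.ng hΩ hU p n hz, H'.ng hΩ hU q n hz]
    have e : FW (lam n) (u n) p z * ((-1) ^ p.natAbs * (starRingEnd ℂ) (FW (lam n) (u n) p z)) *
        ((-1) ^ q.natAbs * (starRingEnd ℂ) (FW (mu n) (v n) q z) * FW (mu n) (v n) q z) =
        ((sg p * sg q * (‖FW (lam n) (u n) p z‖ ^ 2 * ‖FW (mu n) (v n) q z‖ ^ 2) : ℝ) : ℂ) := by
      have e1 : ∀ x : ℂ, ((‖x‖ : ℝ) : ℂ) ^ 2 = x * (starRingEnd ℂ) x := fun x => by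
        rw [mul_conj, normSq_eq_norm_sq]; push_cast; rfl
      unfold sg
      push_cast
      rw [e1, e1]
      ring
    rw [e, ofReal_re]
    ring
  · rw [TF.zero hρ hz]; simp

/-- the sum of squares -/
lemma sos (H : QS Ω lam u) (H' : QS Ω mu v) (hΩ : IsOpen Ω) (hU : ∀ z ∈ Ω, 0 < z.im)
    (hρ : TF Ω ρ) (h0 : ∀ z, 0 ≤ ρ z) (n K : ℕ) (a b : ℤ) (c : ℕ → ℝ) :
    0 ≤ ∑ k ∈ Finset.range K, ∑ l ∈ Finset.range K, c k * c l * (sg a * sg b *
      jr ρ lam mu u v (2 * k + a) (-(2 * l + a)) (-(2 * k + b)) (2 * l + b) n) := by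
  have i0 : ∀ k l : ℕ, Integrable (fun z => ρ z * (c k * c l * (sg a * sg b *
      q2 (lam n) (mu n) (u n) (v n) (2 * k + a) (-(2 * l + a)) (-(2 * k + b)) (2 * l + b) z))) := by
    intro k l
    refine ((q2_int H H' hΩ hU hρ n (2 * k + a) (-(2 * l + a)) (-(2 * k + b))
      (2 * l + b)).const_mul (c k * c l * (sg a * sg b))).congr (Eventually.of_forall fun z => ?_)
    show _ = ρ z * (c k * c l * (sg a * sg b * _))
    ring
  have e : ∑ k ∈ Finset.range K, ∑ l ∈ Finset.range K, c k * c l * (sg a * sg b *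
      jr ρ lam mu u v (2 * k + a) (-(2 * l + a)) (-(2 * k + b)) (2 * l + b) n) =
      ∫ z, ρ z * ∑ k ∈ Finset.range K, ∑ l ∈ Finset.range K, c k * c l * (sg a * sg b *
      q2 (lam n) (mu n) (u n) (v n) (2 * k + a) (-(2 * l + a)) (-(2 * k + b)) (2 * l + b) z) := by
    simp only [Finset.mul_sum (s := Finset.range K)]
    rw [integral_finset_sum _ fun k _ => integrable_finset_sum _ fun l _ => i0 k l]
    refine Finset.sum_congr rfl fun k _ => ?_
    rw [integral_finset_sum _ fun l _ => i0 k l]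
    refine Finset.sum_congr rfl fun l _ => ?_
    rw [jr_eq H H' hΩ hU hρ, ← integral_const_mul, ← integral_const_mul]
    congr 1; funext z; ring
  rw [e]
  refine integral_nonneg fun z => ?_
  show 0 ≤ ρ z * _
  by_cases hz : z ∈ Ω
  · refine mul_nonneg (h0 z) ?_
    set X : ℕ → ℂ := fun k => FW (lam n) (u n) (2 * k + a) z *
      (starRingEnd ℂ) (FW (mu n) (v n) (2 * k + b) z) with hX
    have g : ∀ k l : ℕ, sg a * sg b *
        q2 (lam n) (mu n) (u n) (v n) (2 * k + a) (-(2 * l + a)) (-(2 * k + b)) (2 * l + b) z =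
        (X k * (starRingEnd ℂ) (X l)).re := by
      intro k l
      unfold q2
      rw [H.ng hΩ hU (2 * l + a) n hz, H'.ng hΩ hU (2 * k + b) n hz]
      have g1 : FW (lam n) (u n) (2 * k + a) z * ((-1) ^ (2 * (l : ℤ) + a).natAbs *
          (starRingEnd ℂ) (FW (lam n) (u n) (2 * l + a) z)) *
          ((-1) ^ (2 * (k : ℤ) + b).natAbs * (starRingEnd ℂ) (FW (mu n) (v n) (2 * k + b) z) *
            FW (mu n) (v n) (2 * l + b) z) =
          ((sg (2 * l + a) * sg (2 * k + b) : ℝ) : ℂ) * (X k * (starRingEnd ℂ) (X l)) := by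
        rw [hX]
        simp only [map_mul, conj_conj]
        unfold sg
        push_cast
        ring
      rw [g1, re_ofReal_mul, sg_even (2 * l + a) a ⟨l, by ring⟩, sg_even (2 * k + b) b ⟨k, by ring⟩,
        ← mul_assoc]
      have : sg a * sg b * (sg a * sg b) = 1 := by
        have h1 := sg_sq a; have h2 := sg_sq b
        calc sg a * sg b * (sg a * sg b) = (sg a * sg a) * (sg b * sg b) := by ring
          _ = 1 := by rw [h1, h2, one_mul]
      rw [this, one_mul]
    have g3 : ∑ k ∈ Finset.range K, ∑ l ∈ Finset.range K, c k * c l * (sg a * sg b *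
        q2 (lam n) (mu n) (u n) (v n) (2 * k + a) (-(2 * l + a)) (-(2 * k + b)) (2 * l + b) z) =
        normSq (∑ k ∈ Finset.range K, (c k : ℂ) * X k) := by
      have e1 : ((normSq (∑ k ∈ Finset.range K, (c k : ℂ) * X k) : ℝ) : ℂ) =
          ∑ k ∈ Finset.range K, ∑ l ∈ Finset.range K,
            ((c k * c l : ℝ) : ℂ) * (X k * (starRingEnd ℂ) (X l)) := by
        rw [← mul_conj, map_sum, Finset.sum_mul_sum]
        refine Finset.sum_congr rfl fun k _ => Finset.sum_congr rfl fun l _ => ?_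
        rw [map_mul, conj_ofReal]
        push_cast; ring
      have e2 := congrArg Complex.re e1
      rw [ofReal_re, re_sum] at e2
      rw [e2]
      refine Finset.sum_congr rfl fun k _ => ?_
      rw [re_sum]
      refine Finset.sum_congr rfl fun l _ => ?_
      rw [re_ofReal_mul, g]
    rw [g3]
    exact normSq_nonneg _
  · rw [TF.zero hρ hz, zero_mul]

/-- **Hankel positivity** of the correlations of the energies -/
theorem hank (H : QS Ω lam u) (H' : QS Ω mu v) (hΩ : IsOpen Ω) (hU : ∀ z ∈ Ω, 0 < z.im)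
    (hρ : TF Ω ρ) (h0 : ∀ z, 0 ≤ ρ z) {A : ℝ} (h1 : ∀ n, lam n ≤ A * mu n)
    (h2 : ∀ n, mu n ≤ A * lam n) (K : ℕ) (a b : ℤ) (c : ℕ → ℝ) {ε : ℝ} (hε : 0 < ε) :
    ∀ᶠ n in atTop, ((∑ k ∈ Finset.range K, c k) ^ 2 - ∑ k ∈ Finset.range K, c k ^ 2) *
        (∫ z, ρ z) - ε ≤
      ∑ k ∈ Finset.range K, ∑ l ∈ Finset.range K, c k * c l *
        E2 ρ (lam n) (mu n) (u n) (v n) (k + l + a) (k + l + b) := by
  set m : ℝ := ∫ z, ρ z with hm
  have L := fun a b c d => lads H H' hΩ hU hρ h1 h2 a b c d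
  have sh := shN (fun a b c d n => jr ρ lam mu u v a b c d n - g2 a b c d * m) ?_ ?_ ?_ ?_
  rotate_left
  · intro a b c d
    funext n
    rw [jr12]
    have : g2 a b c d = g2 b a c d := by
      unfold g2 CC
      by_cases h : a + b = 0
      · rw [if_pos h, if_pos (show b + a = 0 by omega)]
        have : a.natAbs = b.natAbs := by omega
        rw [this]
      · rw [if_neg h, if_neg (show ¬ (b + a = 0) by omega)]
    rw [this]
  · intro a b c d
    funext n
    rw [jr34]
    have : g2 a b c d = g2 a b d c := by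
      unfold g2 CC
      congr 2
      by_cases h : c + d = 0
      · rw [if_pos h, if_pos (show d + c = 0 by omega)]
        have : c.natAbs = d.natAbs := by omega
        rw [this]
      · rw [if_neg h, if_neg (show ¬ (d + c = 0) by omega)]
    rw [this]
  · intro a b c d h
    funext n
    rw [jr_cj H H' hΩ hU hρ n a b c d h]
    have : g2 (-a) (-b) (-c) (-d) = g2 a b c d := by
      unfold g2 CC
      simp only [Int.natAbs_neg]
      have e1 : (-a + -b = 0) = (a + b = 0) := by
        apply propext; constructor <;> intro h <;> omega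
      have e2 : (-c + -d = 0) = (c + d = 0) := by
        apply propext; constructor <;> intro h <;> omega
      simp only [e1, e2]
    rw [this]
  · intro a b c d
    have h3 := (continuous_re.tendsto _).comp (L a b c d).1
    have h5 : ((CC (a + 1) (b + 1) * CC (c - 1) (d - 1) + CC (a - 1) (b - 1) *
        CC (c + 1) (d + 1) - 2 * CC a b * CC c d) * ((∫ z, ρ z : ℝ) : ℂ)).re =
        (g2 (a + 1) (b + 1) (c - 1) (d - 1) +
      g2 (a - 1) (b - 1) (c + 1) (d + 1) - 2 * g2 a b c d) * m := by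
      unfold g2
      rw [re_mul_ofReal, sub_re, add_re]
      have : (2 * CC a b * CC c d).re = 2 * (CC a b * CC c d).re := by
        rw [mul_assoc]
        have : (2 : ℂ) = ((2 : ℝ) : ℂ) := by norm_num
        rw [this, re_ofReal_mul]
      rw [this]
    rw [h5] at h3
    have h6 := h3.sub_const ((g2 (a + 1) (b + 1) (c - 1) (d - 1) +
      g2 (a - 1) (b - 1) (c + 1) (d + 1) - 2 * g2 a b c d) * m)
    rw [sub_self] at h6
    refine h6.congr fun n => ?_
    show (J2 ρ (lam n) (mu n) (u n) (v n) (a + 1) (b + 1) (c - 1) (d - 1) +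
      J2 ρ (lam n) (mu n) (u n) (v n) (a - 1) (b - 1) (c + 1) (d + 1) -
      2 * J2 ρ (lam n) (mu n) (u n) (v n) a b c d).re - _ = _
    have : (2 * J2 ρ (lam n) (mu n) (u n) (v n) a b c d).re =
        2 * (J2 ρ (lam n) (mu n) (u n) (v n) a b c d).re := by
      have : (2 : ℂ) = ((2 : ℝ) : ℂ) := by norm_num
      rw [this, re_ofReal_mul]
    rw [sub_re, add_re, this]
    unfold jr
    ring
  -- the relation for one pair of indices
  have R : ∀ k l : ℕ, Tendsto (fun n => c k * c l * (sg a * sg b *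
      jr ρ lam mu u v (2 * k + a) (-(2 * l + a)) (-(2 * k + b)) (2 * l + b) n -
      (if k = l then m else 0) -
      (E2 ρ (lam n) (mu n) (u n) (v n) (k + l + a) (k + l + b) - m))) atTop (𝓝 0) := by
    intro k l
    have h3 := sh (2 * k + a) (-(2 * l + a)) (-(2 * k + b)) (2 * l + b) (l - k) (by ring)
    have s1 : (2 * (k : ℤ) + a + (l - k)) = k + l + a := by ring
    have s2 : (-(2 * (l : ℤ) + a) + (l - k)) = -(k + l + a) := by ring
    have s3 : (-(2 * (k : ℤ) + b) - (l - k)) = -(k + l + b) := by ring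
    have s4 : (2 * (l : ℤ) + b - (l - k)) = k + l + b := by ring
    rw [s1, s2, s3, s4] at h3
    have σ : sg a * sg b * (sg a * sg b) = 1 := by
      have h1 := sg_sq a; have h2 := sg_sq b
      calc sg a * sg b * (sg a * sg b) = (sg a * sg a) * (sg b * sg b) := by ring
        _ = 1 := by rw [h1, h2, one_mul]
    have σ2 : sg (k + l + a) * sg (k + l + b) = sg a * sg b :=
      sg2 _ _ _ _ ⟨k + l, by ring⟩
    have G1 : g2 (k + l + a) (-(k + l + a)) (-(k + l + b)) (k + l + b) = sg a * sg b := by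
      unfold g2
      rw [CC_pair, CC_pair', ← ofReal_mul, ofReal_re, σ2]
    have G2 : g2 (2 * k + a) (-(2 * l + a)) (-(2 * k + b)) (2 * l + b) * m =
        sg a * sg b * (if k = l then m else 0) := by
      by_cases hkl : k = l
      · subst hkl
        unfold g2
        rw [CC_pair, CC_pair', ← ofReal_mul, ofReal_re, if_pos rfl,
          sg_even (2 * k + a) a ⟨k, by ring⟩, sg_even (2 * k + b) b ⟨k, by ring⟩]
      · rw [if_neg hkl]
        unfold g2 CC
        rw [if_neg (by omega)]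
        simp
    have h4 := h3.const_mul (-(c k * c l) * (sg a * sg b))
    rw [mul_zero] at h4
    refine h4.congr fun n => ?_
    rw [E2_jr H H' hΩ hU hρ, G1, G2, σ2]
    have x1 : -(c k * c l) * (sg a * sg b) * (sg a * sg b *
        E2 ρ (lam n) (mu n) (u n) (v n) (k + l + a) (k + l + b) - sg a * sg b * m -
        (jr ρ lam mu u v (2 * k + a) (-(2 * l + a)) (-(2 * k + b)) (2 * l + b) n -
          sg a * sg b * (if k = l then m else 0))) =
        c k * c l * (sg a * sg b *
          jr ρ lam mu u v (2 * k + a) (-(2 * l + a)) (-(2 * k + b)) (2 * l + b) n -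
          (sg a * sg b * (sg a * sg b)) * (if k = l then m else 0) -
        (sg a * sg b * (sg a * sg b)) *
          (E2 ρ (lam n) (mu n) (u n) (v n) (k + l + a) (k + l + b) - m)) := by ring
    rw [x1, σ, one_mul, one_mul]
  have R2 := tendsto_finset_sum (Finset.range K) fun k _ =>
    tendsto_finset_sum (Finset.range K) fun l _ => R k l
  simp only [Finset.sum_const_zero] at R2
  filter_upwards [R2.eventually (Metric.ball_mem_nhds _ hε)] with n hn
  rw [Real.dist_eq, sub_zero] at hn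
  have hs := sos H H' hΩ hU hρ h0 n K a b c
  have d1 : ∑ k ∈ Finset.range K, ∑ l ∈ Finset.range K, c k * c l * (if k = l then m else 0) =
      (∑ k ∈ Finset.range K, c k ^ 2) * m := by
    rw [Finset.sum_mul]
    refine Finset.sum_congr rfl fun k hk => ?_
    have : ∀ l ∈ Finset.range K, c k * c l * (if k = l then m else 0) =
        if k = l then c k ^ 2 * m else 0 := by
      intro l _
      by_cases h : k = l
      · subst h; rw [if_pos rfl, if_pos rfl]; ring
      · simp [h]
    rw [Finset.sum_congr rfl this, Finset.sum_ite_eq, if_pos hk]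
  have d2 : ∑ k ∈ Finset.range K, ∑ l ∈ Finset.range K, c k * c l * m =
      (∑ k ∈ Finset.range K, c k) ^ 2 * m := by
    rw [sq, Finset.sum_mul_sum, Finset.sum_mul]
    refine Finset.sum_congr rfl fun k _ => ?_
    rw [Finset.sum_mul]
  have e : ∑ k ∈ Finset.range K, ∑ l ∈ Finset.range K, c k * c l * (sg a * sg b *
      jr ρ lam mu u v (2 * k + a) (-(2 * l + a)) (-(2 * k + b)) (2 * l + b) n -
      (if k = l then m else 0) -
      (E2 ρ (lam n) (mu n) (u n) (v n) (k + l + a) (k + l + b) - m)) =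
      (∑ k ∈ Finset.range K, ∑ l ∈ Finset.range K, c k * c l * (sg a * sg b *
        jr ρ lam mu u v (2 * k + a) (-(2 * l + a)) (-(2 * k + b)) (2 * l + b) n)) -
      (∑ k ∈ Finset.range K, c k ^ 2) * m -
      ((∑ k ∈ Finset.range K, ∑ l ∈ Finset.range K, c k * c l *
        E2 ρ (lam n) (mu n) (u n) (v n) (k + l + a) (k + l + b)) -
        (∑ k ∈ Finset.range K, c k) ^ 2 * m) := by
    rw [← d1, ← d2]
    simp only [← Finset.sum_sub_distrib]
    refine Finset.sum_congr rfl fun k _ => Finset.sum_congr rfl fun l _ => ?_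
    ring
  rw [e] at hn
  have h6 := (abs_lt.1 hn).2
  have h7 : ((∑ k ∈ Finset.range K, c k) ^ 2 - ∑ k ∈ Finset.range K, c k ^ 2) * m =
      (∑ k ∈ Finset.range K, c k) ^ 2 * m - (∑ k ∈ Finset.range K, c k ^ 2) * m := by ring
  rw [h7]
  linarith

end

end Pool.Agent.R314.JN
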