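import Pool.Agent.R314.JN.Null
import Pool.Agent.R314.JN.Alg
import Pool.Agent.Y265.HY.N5

/-!
# A lower bound for the joint fourth moment of two ladders of equal frequency
-/

set_option autoImplicit false
open MeasureTheory Filter Topology Complex
open scoped ContDiff

namespace Pool.Agent.R314.JN

open Pool.Agent.W745.RW Pool.Agent.TH294.RS Pool.Agent.Y265.HY

noncomputable section

/-- a quantum ergodic sequence -/
structure QS (Ω : Set ℂ) (lam : ℕ → ℝ) (u : ℕ → ℂ → ℝ) : Prop where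
  pos : ∀ n, 0 < lam n
  lim : Tendsto lam atTop atTop
  sm : ∀ n, ContDiffOn ℝ ∞ (u n) Ω
  eq : ∀ n, ∀ z ∈ Ω, z.im ^ 2 * lap (u n) z + lam n * u n z = 0
  qe : ∀ φ, TF Ω φ → ∀ k : ℕ, Tendsto (fun n => ∫ z, ((φ z / z.im ^ 2 : ℝ) : ℂ) *
      ((u n z : ℂ) * (FD (lam n))^[k] (fun w => (u n w : ℂ)) z)) atTop
      (𝓝 (if k = 0 then ((∫ z, φ z / z.im ^ 2 : ℝ) : ℂ) else 0))

variable {Ω : Set ℂ} {lam mu : ℕ → ℝ} {u v : ℕ → ℂ → ℝ} {ρ : ℂ → ℝ}

lemma QS.co (H : QS Ω lam u) (hΩ : IsOpen Ω) (hU : ∀ z ∈ Ω, 0 < z.im) (k : ℤ) (n : ℕ) :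
    ContinuousOn (FW (lam n) (u n) k) Ω := by
  obtain ⟨S, E⟩ := hyp_sys hΩ hU H.pos H.lim H.sm H.eq H.qe
  exact (((S.bd k).sm n).continuousOn).congr fun z _ => (FW_eq lam u k n z).symm

lemma QS.cj (H : QS Ω lam u) (hΩ : IsOpen Ω) (hU : ∀ z ∈ Ω, 0 < z.im) (k : ℤ) (n : ℕ) {z : ℂ}
    (hz : z ∈ Ω) : (starRingEnd ℂ) (FW (lam n) (u n) k z) =
      (-1) ^ k.natAbs * FW (lam n) (u n) (-k) z := by
  obtain ⟨S, E⟩ := hyp_sys hΩ hU H.pos H.lim H.sm H.eq H.qe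
  have := S.cj k n z hz
  rwa [FW_eq lam u k n z, FW_eq lam u (-k) n z] at this

/-- joint moments -/
def J2 (ρ : ℂ → ℝ) (lam mu : ℝ) (u v : ℂ → ℝ) (a b c d : ℤ) : ℂ :=
  ∫ z, (ρ z : ℂ) * (FW lam u a z * FW lam u b z * (FW mu v c z * FW mu v d z))

/-- the integrand -/
def q2 (lam mu : ℝ) (u v : ℂ → ℝ) (a b c d : ℤ) (z : ℂ) : ℝ :=
  (FW lam u a z * FW lam u b z * (FW mu v c z * FW mu v d z)).re

lemma q2_co (H : QS Ω lam u) (H' : QS Ω mu v) (hΩ : IsOpen Ω) (hU : ∀ z ∈ Ω, 0 < z.im)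
    (n : ℕ) (a b c d : ℤ) :
    ContinuousOn (fun z => FW (lam n) (u n) a z * FW (lam n) (u n) b z *
      (FW (mu n) (v n) c z * FW (mu n) (v n) d z)) Ω :=
  ((H.co hΩ hU a n).mul (H.co hΩ hU b n)).mul ((H'.co hΩ hU c n).mul (H'.co hΩ hU d n))

lemma q2_int (H : QS Ω lam u) (H' : QS Ω mu v) (hΩ : IsOpen Ω) (hU : ∀ z ∈ Ω, 0 < z.im)
    (hρ : TF Ω ρ) (n : ℕ) (a b c d : ℤ) :
    Integrable (fun z => ρ z * q2 (lam n) (mu n) (u n) (v n) a b c d z) :=
  Pool.Agent.Y265.RW.int_mulr hΩ hρ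
    (continuous_re.comp_continuousOn (q2_co H H' hΩ hU n a b c d))

lemma J2_re (H : QS Ω lam u) (H' : QS Ω mu v) (hΩ : IsOpen Ω) (hU : ∀ z ∈ Ω, 0 < z.im)
    (hρ : TF Ω ρ) (n : ℕ) (a b c d : ℤ) :
    (J2 ρ (lam n) (mu n) (u n) (v n) a b c d).re =
      ∫ z, ρ z * q2 (lam n) (mu n) (u n) (v n) a b c d z := by
  have hi := TF.cint hρ (q2_co H H' hΩ hU n a b c d)
  have := Complex.reCLM.integral_comp_comm hi
  simp only [Complex.reCLM_apply] at this
  unfold J2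
  rw [← this]
  congr 1; funext z
  simp only [q2]
  rw [Complex.re_ofReal_mul]

/-- the relations of the ladders -/
theorem lads (H : QS Ω lam u) (H' : QS Ω mu v) (hΩ : IsOpen Ω) (hU : ∀ z ∈ Ω, 0 < z.im)
    (hρ : TF Ω ρ) {A : ℝ} (h1 : ∀ n, lam n ≤ A * mu n) (h2 : ∀ n, mu n ≤ A * lam n)
    (a b c d : ℤ) :
    Tendsto (fun n => J2 ρ (lam n) (mu n) (u n) (v n) (a + 1) (b + 1) (c - 1) (d - 1) +
      J2 ρ (lam n) (mu n) (u n) (v n) (a - 1) (b - 1) (c + 1) (d + 1) -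
      2 * J2 ρ (lam n) (mu n) (u n) (v n) a b c d) atTop
      (𝓝 ((CC (a + 1) (b + 1) * CC (c - 1) (d - 1) + CC (a - 1) (b - 1) * CC (c + 1) (d + 1) -
        2 * CC a b * CC c d) * ((∫ z, ρ z : ℝ) : ℂ))) ∧
    Tendsto (fun n => J2 ρ (lam n) (mu n) (u n) (v n) (a + 1) b c d +
      J2 ρ (lam n) (mu n) (u n) (v n) a (b + 1) c d + (√(mu n) / √(lam n) : ℝ) *
      (J2 ρ (lam n) (mu n) (u n) (v n) a b (c + 1) d +
        J2 ρ (lam n) (mu n) (u n) (v n) a b c (d + 1)))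
      atTop (𝓝 0) := by
  obtain ⟨S, E⟩ := hyp_sys hΩ hU H.pos H.lim H.sm H.eq H.qe
  obtain ⟨S', E'⟩ := hyp_sys hΩ hU H'.pos H'.lim H'.sm H'.eq H'.qe
  have hA : 0 < A := by
    have p1 := H.pos 0; have p2 := H'.pos 0
    by_contra hA
    have := h1 0
    nlinarith
  have cmp : ∀ x y : ℝ, 0 < x → 0 < y → y ≤ A * x → 1 / √x ≤ √A * (1 / √y) := by
    intro x y hx hy hxy
    have : √y ≤ √A * √x := by
      rw [← Real.sqrt_mul hA.le]
      exact Real.sqrt_le_sqrt hxy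
    have px := Real.sqrt_pos.2 hx
    have py := Real.sqrt_pos.2 hy
    rw [mul_one_div, div_le_div_iff₀ px py]
    linarith
  have hC : ∀ n, 1 / √(lam n) ≤ √A * (1 / √(mu n)) := fun n =>
    cmp _ _ (H.pos _) (H'.pos _) (h2 n)
  have hC' : ∀ n, 1 / √(mu n) ≤ √A * (1 / √(lam n)) := fun n =>
    cmp _ _ (H'.pos _) (H.pos _) (h1 n)
  have hBU : Ω ⊆ UH := fun z hz => hU z hz
  have key := nWJ S S' hBU hC hC' E E' a b c d
  have key2 := tr5 S S' hBU hC E E' a b c d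
  have cJ := fun n a b c d => q2_co H H' hΩ hU n a b c d
  have iJ := fun n a b c d => TF.cint hρ (cJ n a b c d)
  simp only [FW_eq lam u, FW_eq mu v] at key key2
  have IJ : Integrable (fun z => (ρ z : ℂ)) :=
    (hρ.1.continuous.integrable_of_hasCompactSupport hρ.2.1).ofReal
  constructor
  · have k1 := key.nul _ hρ
    set c0 : ℂ := CC (a + 1) (b + 1) * CC (c - 1) (d - 1) + CC (a - 1) (b - 1) *
      CC (c + 1) (d + 1) - 2 * CC a b * CC c d with hc0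
    have k2 : Tendsto (fun n => (∫ z, (ρ z : ℂ) *
      (FW (lam n) (u n) (a + 1) z * FW (lam n) (u n) (b + 1) z * FW (mu n) (v n) (c - 1) z *
        FW (mu n) (v n) (d - 1) z +
      FW (lam n) (u n) (a - 1) z * FW (lam n) (u n) (b - 1) z * FW (mu n) (v n) (c + 1) z *
        FW (mu n) (v n) (d + 1) z -
      2 * (FW (lam n) (u n) a z * FW (lam n) (u n) b z * FW (mu n) (v n) c z *
        FW (mu n) (v n) d z) - c0)) + c0 * ((∫ z, ρ z : ℝ) : ℂ)) atTop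
        (𝓝 (0 + c0 * ((∫ z, ρ z : ℝ) : ℂ))) := by
      refine Tendsto.add_const _ ?_
      refine k1.congr fun n => ?_
      rfl
    rw [zero_add] at k2
    refine k2.congr fun n => ?_
    have e1 : c0 * ((∫ z, ρ z : ℝ) : ℂ) = ∫ z, (ρ z : ℂ) * c0 := by
      rw [integral_mul_const, integral_complex_ofReal, mul_comm]
    have i1 : Integrable (fun z => (ρ z : ℂ) *
      (FW (lam n) (u n) (a + 1) z * FW (lam n) (u n) (b + 1) z * FW (mu n) (v n) (c - 1) z *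
        FW (mu n) (v n) (d - 1) z +
      FW (lam n) (u n) (a - 1) z * FW (lam n) (u n) (b - 1) z * FW (mu n) (v n) (c + 1) z *
        FW (mu n) (v n) (d + 1) z -
      2 * (FW (lam n) (u n) a z * FW (lam n) (u n) b z * FW (mu n) (v n) c z *
        FW (mu n) (v n) d z) - c0)) := by
      refine ((((iJ n (a + 1) (b + 1) (c - 1) (d - 1)).add (iJ n (a - 1) (b - 1) (c + 1)
        (d + 1))).sub ((iJ n a b c d).const_mul 2)).sub (IJ.mul_const c0)).congr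
          (Eventually.of_forall fun z => ?_)
      simp only [Pi.add_apply, Pi.sub_apply]
      ring
    have i2 : Integrable (fun z => (ρ z : ℂ) * c0) := IJ.mul_const c0
    rw [e1, ← integral_add i1 i2]
    unfold J2
    have h12 : Integrable (fun z => (ρ z : ℂ) * (FW (lam n) (u n) (a + 1) z *
      FW (lam n) (u n) (b + 1) z * (FW (mu n) (v n) (c - 1) z * FW (mu n) (v n) (d - 1) z)) +
      (ρ z : ℂ) * (FW (lam n) (u n) (a - 1) z *
      FW (lam n) (u n) (b - 1) z * (FW (mu n) (v n) (c + 1) z * FW (mu n) (v n) (d + 1) z))) :=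
      (iJ n _ _ _ _).add (iJ n _ _ _ _)
    have h3 : Integrable (fun z => 2 * ((ρ z : ℂ) * (FW (lam n) (u n) a z *
      FW (lam n) (u n) b z * (FW (mu n) (v n) c z * FW (mu n) (v n) d z)))) :=
      (iJ n _ _ _ _).const_mul 2
    rw [← integral_add (iJ n _ _ _ _) (iJ n _ _ _ _), ← integral_const_mul,
      ← integral_sub h12 h3]
    congr 1; funext z
    ring
  · have k1 := key2.nul _ hρ
    refine Tendsto.congr (fun n => ?_) k1
    unfold J2
    have hr : (1 / √(lam n)) / (1 / √(mu n)) = √(mu n) / √(lam n) := by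
      have p1 := (Real.sqrt_pos.2 (H.pos n)).ne'
      have p2 := (Real.sqrt_pos.2 (H'.pos n)).ne'
      field_simp
    have h34 : Integrable (fun z => (ρ z : ℂ) * (FW (lam n) (u n) a z *
      FW (lam n) (u n) b z * (FW (mu n) (v n) (c + 1) z * FW (mu n) (v n) d z)) +
      (ρ z : ℂ) * (FW (lam n) (u n) a z *
      FW (lam n) (u n) b z * (FW (mu n) (v n) c z * FW (mu n) (v n) (d + 1) z))) :=
      (iJ n _ _ _ _).add (iJ n _ _ _ _)
    have h12 : Integrable (fun z => (ρ z : ℂ) * (FW (lam n) (u n) (a + 1) z *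
      FW (lam n) (u n) b z * (FW (mu n) (v n) c z * FW (mu n) (v n) d z)) +
      (ρ z : ℂ) * (FW (lam n) (u n) a z *
      FW (lam n) (u n) (b + 1) z * (FW (mu n) (v n) c z * FW (mu n) (v n) d z))) :=
      (iJ n _ _ _ _).add (iJ n _ _ _ _)
    rw [← integral_add (iJ n _ _ _ _) (iJ n _ _ _ _), ← integral_add (iJ n _ _ _ _)
      (iJ n _ _ _ _), ← integral_const_mul, ← integral_add h12 (h34.const_mul _)]
    congr 1; funext z
    rw [← hr]
    ring

end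

end Pool.Agent.R314.JN
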