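import Pool.Agent.R314.JN.Low

/-!
# Positivity for the four-point functions of two ladders
-/

set_option autoImplicit false
open MeasureTheory Filter Topology Complex
open scoped ContDiff

namespace Pool.Agent.R314.JN

open Pool.Agent.W745.RW Pool.Agent.TH294.RS Pool.Agent.Y265.HY

noncomputable section

/-- Cauchy-Schwarz -/
lemma csI {ρ A B : ℂ → ℝ} (h0 : ∀ z, 0 ≤ ρ z) (iA : Integrable (fun z => ρ z * A z ^ 2))
    (iB : Integrable (fun z => ρ z * B z ^ 2)) (iAB : Integrable (fun z => ρ z * (A z * B z))) :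
    (∫ z, ρ z * (A z * B z)) ^ 2 ≤ (∫ z, ρ z * A z ^ 2) * ∫ z, ρ z * B z ^ 2 := by
  have h : ∀ x : ℝ, 0 ≤ (∫ z, ρ z * B z ^ 2) * (x * x) + (-2 * ∫ z, ρ z * (A z * B z)) * x +
      ∫ z, ρ z * A z ^ 2 := by
    intro x
    have i1 : Integrable (fun z => (x * x) * (ρ z * B z ^ 2)) := iB.const_mul _
    have i2 : Integrable (fun z => (-2 * x) * (ρ z * (A z * B z))) := iAB.const_mul _
    have i12 : Integrable (fun z => (x * x) * (ρ z * B z ^ 2) +
      (-2 * x) * (ρ z * (A z * B z))) := i1.add i2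
    have e : (∫ z, ρ z * B z ^ 2) * (x * x) + (-2 * ∫ z, ρ z * (A z * B z)) * x +
      ∫ z, ρ z * A z ^ 2 = ∫ z, ((x * x) * (ρ z * B z ^ 2) + (-2 * x) * (ρ z * (A z * B z)) +
        ρ z * A z ^ 2) := by
      rw [integral_add i12 iA, integral_add i1 i2, integral_const_mul, integral_const_mul]
      ring
    rw [e]
    refine integral_nonneg fun z => ?_
    have : (x * x) * (ρ z * B z ^ 2) + (-2 * x) * (ρ z * (A z * B z)) +
        ρ z * A z ^ 2 = ρ z * (x * B z - A z) ^ 2 := by ring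
    show 0 ≤ (x * x) * (ρ z * B z ^ 2) + (-2 * x) * (ρ z * (A z * B z)) + ρ z * A z ^ 2
    rw [this]
    exact mul_nonneg (h0 z) (sq_nonneg _)
  have h1 := discrim_le_zero h
  unfold discrim at h1
  nlinarith

variable {Ω : Set ℂ} {lam mu : ℕ → ℝ} {u v : ℕ → ℂ → ℝ} {ρ : ℂ → ℝ}

/-- the real joint moments -/
def jr (ρ : ℂ → ℝ) (lam mu : ℕ → ℝ) (u v : ℕ → ℂ → ℝ) (a b c d : ℤ) (n : ℕ) : ℝ :=
  (J2 ρ (lam n) (mu n) (u n) (v n) a b c d).re

lemma jr_eq (H : QS Ω lam u) (H' : QS Ω mu v) (hΩ : IsOpen Ω) (hU : ∀ z ∈ Ω, 0 < z.im)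
    (hρ : TF Ω ρ) (n : ℕ) (a b c d : ℤ) : jr ρ lam mu u v a b c d n =
      ∫ z, ρ z * q2 (lam n) (mu n) (u n) (v n) a b c d z := J2_re H H' hΩ hU hρ n a b c d

lemma jr12 (n : ℕ) (a b c d : ℤ) : jr ρ lam mu u v a b c d n = jr ρ lam mu u v b a c d n := by
  unfold jr J2
  congr 2; funext z; ring

lemma jr34 (n : ℕ) (a b c d : ℤ) : jr ρ lam mu u v a b c d n = jr ρ lam mu u v a b d c n := by
  unfold jr J2
  congr 2; funext z; ring

/-- the ladder with negative index -/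
lemma QS.ng (H : QS Ω lam u) (hΩ : IsOpen Ω) (hU : ∀ z ∈ Ω, 0 < z.im) (k : ℤ) (n : ℕ) {z : ℂ}
    (hz : z ∈ Ω) : FW (lam n) (u n) (-k) z =
      (-1) ^ k.natAbs * (starRingEnd ℂ) (FW (lam n) (u n) k z) := by
  rw [H.cj hΩ hU k n hz, ← mul_assoc, ← mul_pow]
  norm_num

lemma jr_cj (H : QS Ω lam u) (H' : QS Ω mu v) (hΩ : IsOpen Ω) (hU : ∀ z ∈ Ω, 0 < z.im)
    (hρ : TF Ω ρ) (n : ℕ) (a b c d : ℤ) (h : a + b + c + d = 0) :
    jr ρ lam mu u v (-a) (-b) (-c) (-d) n = jr ρ lam mu u v a b c d n := by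
  rw [jr_eq H H' hΩ hU hρ, jr_eq H H' hΩ hU hρ]
  congr 1; funext z
  by_cases hz : z ∈ Ω
  · congr 1
    unfold q2
    rw [H.ng hΩ hU a n hz, H.ng hΩ hU b n hz, H'.ng hΩ hU c n hz, H'.ng hΩ hU d n hz]
    have e : ((-1 : ℂ) ^ a.natAbs * (starRingEnd ℂ) (FW (lam n) (u n) a z) *
        ((-1) ^ b.natAbs * (starRingEnd ℂ) (FW (lam n) (u n) b z)) *
        ((-1) ^ c.natAbs * (starRingEnd ℂ) (FW (mu n) (v n) c z) *
          ((-1) ^ d.natAbs * (starRingEnd ℂ) (FW (mu n) (v n) d z)))) =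
        (-1 : ℂ) ^ (a.natAbs + b.natAbs + c.natAbs + d.natAbs) *
        (starRingEnd ℂ) (FW (lam n) (u n) a z * FW (lam n) (u n) b z *
          (FW (mu n) (v n) c z * FW (mu n) (v n) d z)) := by
      simp only [map_mul, pow_add]; ring
    have e2 : Even (a.natAbs + b.natAbs + c.natAbs + d.natAbs) := by
      rw [Nat.even_iff]; omega
    rw [e, e2.neg_one_pow, one_mul, conj_re]
  · rw [TF.zero hρ hz]; simp

/-- mixed second moments of the squares -/
def nn (ρ : ℂ → ℝ) (lam : ℝ) (u : ℂ → ℝ) (a b : ℤ) : ℝ :=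
  ∫ z, ρ z * (‖FW lam u a z‖ * ‖FW lam u b z‖) ^ 2

lemma jr_cs (H : QS Ω lam u) (H' : QS Ω mu v) (hΩ : IsOpen Ω) (hU : ∀ z ∈ Ω, 0 < z.im)
    (hρ : TF Ω ρ) (h0 : ∀ z, 0 ≤ ρ z) (n : ℕ) (a b c d : ℤ) :
    jr ρ lam mu u v a b c d n ^ 2 ≤ nn ρ (lam n) (u n) a b * nn ρ (mu n) (v n) c d := by
  have cA : ContinuousOn (fun z => ‖FW (lam n) (u n) a z‖ * ‖FW (lam n) (u n) b z‖) Ω :=
    (H.co hΩ hU a n).norm.mul (H.co hΩ hU b n).norm
  have cB : ContinuousOn (fun z => ‖FW (mu n) (v n) c z‖ * ‖FW (mu n) (v n) d z‖) Ω :=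
    (H'.co hΩ hU c n).norm.mul (H'.co hΩ hU d n).norm
  have iA := Pool.Agent.Y265.RW.int_mulr hΩ hρ (cA.pow 2)
  have iB := Pool.Agent.Y265.RW.int_mulr hΩ hρ (cB.pow 2)
  have iAB := Pool.Agent.Y265.RW.int_mulr hΩ hρ (cA.mul cB)
  have h1 := csI h0 iA iB iAB
  refine le_trans ?_ h1
  rw [jr_eq H H' hΩ hU hρ]
  refine sq_le_sq' ?_ ?_
  · rw [neg_le, ← integral_neg]
    refine integral_mono (q2_int H H' hΩ hU hρ n a b c d).neg iAB fun z => ?_
    show -(ρ z * q2 (lam n) (mu n) (u n) (v n) a b c d z) ≤ _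
    rw [← mul_neg]
    refine mul_le_mul_of_nonneg_left ?_ (h0 z)
    unfold q2
    refine (neg_le_abs _).trans ((abs_re_le_norm _).trans (le_of_eq ?_))
    simp only [norm_mul]
  · refine integral_mono (q2_int H H' hΩ hU hρ n a b c d) iAB fun z => ?_
    refine mul_le_mul_of_nonneg_left ?_ (h0 z)
    unfold q2
    refine (le_abs_self _).trans ((abs_re_le_norm _).trans (le_of_eq ?_))
    simp only [norm_mul]

lemma re2 (a b : ℂ) : (a * b).re + (a * (starRingEnd ℂ) b).re = 2 * (a.re * b.re) := by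
  rw [mul_re, mul_re, conj_re, conj_im]; ring

/-- **positivity** -/
lemma jr_pos (H : QS Ω lam u) (H' : QS Ω mu v) (hΩ : IsOpen Ω) (hU : ∀ z ∈ Ω, 0 < z.im)
    (hρ : TF Ω ρ) (h0 : ∀ z, 0 ≤ ρ z) (n K : ℕ) :
    0 ≤ ∑ k ∈ Finset.range K, ∑ l ∈ Finset.range K, (-1 : ℝ) ^ ((k : ℤ) + (l : ℤ)) *
      (jr ρ lam mu u v k l (-k) (-l) n + jr ρ lam mu u v k (-l) (-k) l n) := by
  have e : ∑ k ∈ Finset.range K, ∑ l ∈ Finset.range K, (-1 : ℝ) ^ ((k : ℤ) + (l : ℤ)) *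
      (jr ρ lam mu u v k l (-k) (-l) n + jr ρ lam mu u v k (-l) (-k) l n) =
      ∫ z, ρ z * ∑ k ∈ Finset.range K, ∑ l ∈ Finset.range K, (-1 : ℝ) ^ ((k : ℤ) + (l : ℤ)) *
      (q2 (lam n) (mu n) (u n) (v n) k l (-k) (-l) z +
        q2 (lam n) (mu n) (u n) (v n) k (-l) (-k) l z) := by
    have i0 : ∀ k l : ℕ, Integrable (fun z => ρ z * ((-1 : ℝ) ^ ((k : ℤ) + (l : ℤ)) *
      (q2 (lam n) (mu n) (u n) (v n) k l (-k) (-l) z +
        q2 (lam n) (mu n) (u n) (v n) k (-l) (-k) l z))) := by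
      intro k l
      refine (((q2_int H H' hΩ hU hρ n k l (-k) (-l)).add
        (q2_int H H' hΩ hU hρ n k (-l) (-k) l)).const_mul ((-1 : ℝ) ^ ((k : ℤ) + (l : ℤ)))).congr
          (Eventually.of_forall fun z => ?_)
      simp only [Pi.add_apply]; ring
    simp only [Finset.mul_sum]
    rw [integral_finset_sum _ fun k _ => integrable_finset_sum _ fun l _ => i0 k l]
    refine Finset.sum_congr rfl fun k _ => ?_
    rw [integral_finset_sum _ fun l _ => i0 k l]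
    refine Finset.sum_congr rfl fun l _ => ?_
    rw [jr_eq H H' hΩ hU hρ, jr_eq H H' hΩ hU hρ, ← integral_add (q2_int H H' hΩ hU hρ n _ _ _ _)
      (q2_int H H' hΩ hU hρ n _ _ _ _), ← integral_const_mul]
    congr 1; funext z; ring
  rw [e]
  refine integral_nonneg fun z => ?_
  show 0 ≤ ρ z * _
  by_cases hz : z ∈ Ω
  · refine mul_nonneg (h0 z) ?_
    set X : ℕ → ℂ := fun k => FW (lam n) (u n) k z * (starRingEnd ℂ) (FW (mu n) (v n) k z) with hX
    have g : ∀ k l : ℕ, (-1 : ℝ) ^ ((k : ℤ) + (l : ℤ)) *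
      (q2 (lam n) (mu n) (u n) (v n) k l (-k) (-l) z +
        q2 (lam n) (mu n) (u n) (v n) k (-l) (-k) l z) = 2 * ((X k).re * (X l).re) := by
      intro k l
      unfold q2
      rw [H'.ng hΩ hU k n hz, H'.ng hΩ hU l n hz, H.ng hΩ hU l n hz]
      simp only [Int.natAbs_natCast]
      have s1 : ((-1 : ℝ) ^ ((k : ℤ) + (l : ℤ))) = (-1 : ℝ) ^ (k + l) := by
        rw [← Nat.cast_add, zpow_natCast]
      have s2 : ((-1 : ℂ) ^ (k + l)) = (((-1 : ℝ) ^ (k + l) : ℝ) : ℂ) := by push_cast; rfl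
      have s3 : ((-1 : ℝ) ^ (k + l)) * (-1 : ℝ) ^ (k + l) = 1 := by
        rw [← mul_pow]; norm_num
      have g1 : FW (lam n) (u n) k z * FW (lam n) (u n) l z *
          ((-1) ^ k * (starRingEnd ℂ) (FW (mu n) (v n) k z) *
            ((-1) ^ l * (starRingEnd ℂ) (FW (mu n) (v n) l z))) =
          (((-1 : ℝ) ^ (k + l) : ℝ) : ℂ) * (X k * X l) := by
        rw [← s2, hX, pow_add]; ring
      have g2 : FW (lam n) (u n) k z * ((-1) ^ l * (starRingEnd ℂ) (FW (lam n) (u n) l z)) *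
          ((-1) ^ k * (starRingEnd ℂ) (FW (mu n) (v n) k z) * FW (mu n) (v n) l z) =
          (((-1 : ℝ) ^ (k + l) : ℝ) : ℂ) * (X k * (starRingEnd ℂ) (X l)) := by
        rw [← s2, hX, pow_add]
        simp only [map_mul, conj_conj]
        ring
      rw [g1, g2, re_ofReal_mul, re_ofReal_mul, s1, ← mul_add, ← mul_assoc, s3, one_mul]
      exact re2 _ _
    have g3 : ∑ k ∈ Finset.range K, ∑ l ∈ Finset.range K, (-1 : ℝ) ^ ((k : ℤ) + (l : ℤ)) *
      (q2 (lam n) (mu n) (u n) (v n) k l (-k) (-l) z +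
        q2 (lam n) (mu n) (u n) (v n) k (-l) (-k) l z) =
        2 * (∑ k ∈ Finset.range K, (X k).re) ^ 2 := by
      simp only [g]
      rw [sq, Finset.sum_mul_sum, Finset.mul_sum]
      refine Finset.sum_congr rfl fun k _ => ?_
      rw [Finset.mul_sum]
    rw [g3]
    positivity
  · rw [TF.zero hρ hz, zero_mul]

/-- Cauchy-Schwarz for the alternating sums of the squares -/
lemma jr_cs2 (H : QS Ω lam u) (H' : QS Ω mu v) (hΩ : IsOpen Ω) (hU : ∀ z ∈ Ω, 0 < z.im)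
    (hρ : TF Ω ρ) (h0 : ∀ z, 0 ≤ ρ z) (n K : ℕ) :
    (∑ k ∈ Finset.range K, ∑ l ∈ Finset.range K, jr ρ lam mu u v k (-k) l (-l) n) ^ 2 ≤
    (∑ k ∈ Finset.range K, ∑ l ∈ Finset.range K, jr ρ lam lam u u k (-k) l (-l) n) *
    (∑ k ∈ Finset.range K, ∑ l ∈ Finset.range K, jr ρ mu mu v v k (-k) l (-l) n) ∧
    0 ≤ ∑ k ∈ Finset.range K, ∑ l ∈ Finset.range K, jr ρ lam lam u u k (-k) l (-l) n ∧
    0 ≤ ∑ k ∈ Finset.range K, ∑ l ∈ Finset.range K, jr ρ mu mu v v k (-k) l (-l) n := by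
  set A : ℂ → ℝ := fun z => ∑ k ∈ Finset.range K,
    (FW (lam n) (u n) k z * FW (lam n) (u n) (-k) z).re with hA
  set B : ℂ → ℝ := fun z => ∑ k ∈ Finset.range K,
    (FW (mu n) (v n) k z * FW (mu n) (v n) (-k) z).re with hB
  have cA : ContinuousOn A Ω := continuousOn_finset_sum _ fun k _ =>
    continuous_re.comp_continuousOn ((H.co hΩ hU k n).mul (H.co hΩ hU (-k) n))
  have cB : ContinuousOn B Ω := continuousOn_finset_sum _ fun k _ =>
    continuous_re.comp_continuousOn ((H'.co hΩ hU k n).mul (H'.co hΩ hU (-k) n))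
  -- general identity
  have gen : ∀ {lam mu : ℕ → ℝ} {u v : ℕ → ℂ → ℝ}, QS Ω lam u → QS Ω mu v →
      ∑ k ∈ Finset.range K, ∑ l ∈ Finset.range K, jr ρ lam mu u v k (-k) l (-l) n =
      ∫ z, ρ z * ((∑ k ∈ Finset.range K, (FW (lam n) (u n) k z * FW (lam n) (u n) (-k) z).re) *
        ∑ l ∈ Finset.range K, (FW (mu n) (v n) l z * FW (mu n) (v n) (-l) z).re) := by
    intro lam mu u v H H'
    have e1 : ∀ z, ρ z * ((∑ k ∈ Finset.range K,
        (FW (lam n) (u n) k z * FW (lam n) (u n) (-k) z).re) *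
        ∑ l ∈ Finset.range K, (FW (mu n) (v n) l z * FW (mu n) (v n) (-l) z).re) =
        ∑ k ∈ Finset.range K, ∑ l ∈ Finset.range K,
          ρ z * q2 (lam n) (mu n) (u n) (v n) k (-k) l (-l) z := by
      intro z
      by_cases hz : z ∈ Ω
      · rw [Finset.sum_mul_sum, Finset.mul_sum]
        refine Finset.sum_congr rfl fun k _ => ?_
        rw [Finset.mul_sum]
        refine Finset.sum_congr rfl fun l _ => ?_
        congr 1
        unfold q2
        rw [mul_re (FW (lam n) (u n) k z * FW (lam n) (u n) (-k) z)]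
        have : (FW (lam n) (u n) k z * FW (lam n) (u n) (-k) z).im = 0 := by
          rw [H.ng hΩ hU k n hz]
          have : FW (lam n) (u n) k z * ((-1) ^ (k : ℤ).natAbs *
              (starRingEnd ℂ) (FW (lam n) (u n) k z)) =
              (((-1 : ℝ) ^ (k : ℤ).natAbs * normSq (FW (lam n) (u n) k z) : ℝ) : ℂ) := by
            push_cast
            rw [← mul_conj]; ring
          rw [this, ofReal_im]
        rw [this, zero_mul, sub_zero]
      · simp only [TF.zero hρ hz, zero_mul, Finset.sum_const_zero]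
    simp only [e1]
    have i0 : ∀ k l : ℕ, Integrable (fun z => ρ z * q2 (lam n) (mu n) (u n) (v n) k (-k) l (-l) z) :=
      fun k l => q2_int H H' hΩ hU hρ n _ _ _ _
    rw [integral_finset_sum _ fun k _ => integrable_finset_sum _ fun l _ => i0 k l]
    refine Finset.sum_congr rfl fun k _ => ?_
    rw [integral_finset_sum _ fun l _ => i0 k l]
    refine Finset.sum_congr rfl fun l _ => ?_
    rw [jr_eq H H' hΩ hU hρ]
  rw [gen H H', gen H H, gen H' H']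
  have iA := Pool.Agent.Y265.RW.int_mulr hΩ hρ (cA.pow 2)
  have iB := Pool.Agent.Y265.RW.int_mulr hΩ hρ (cB.pow 2)
  have iAB := Pool.Agent.Y265.RW.int_mulr hΩ hρ (cA.mul cB)
  have h1 := csI h0 iA iB iAB
  simp only [sq (A _), sq (B _)] at h1
  refine ⟨h1, integral_nonneg fun z => mul_nonneg (h0 z) (mul_self_nonneg _),
    integral_nonneg fun z => mul_nonneg (h0 z) (mul_self_nonneg _)⟩

end

end Pool.Agent.R314.JN
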