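import Pool.Agent.R314.JN.Low2

/-!
# The lower bound for the joint fourth moment
-/

set_option autoImplicit false
open MeasureTheory Filter Topology Complex
open scoped ContDiff

namespace Pool.Agent.R314.JN

open Pool.Agent.W745.RW Pool.Agent.TH294.RS Pool.Agent.Y265.HY

noncomputable section

lemma sum_sign {K : ℕ} (hK : Even K) :
    ∑ k ∈ Finset.range K, ∑ l ∈ Finset.range K, (-1 : ℝ) ^ (k + l) = 0 := by
  have : ∑ k ∈ Finset.range K, ∑ l ∈ Finset.range K, (-1 : ℝ) ^ (k + l) =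
      (∑ k ∈ Finset.range K, (-1 : ℝ) ^ k) * ∑ l ∈ Finset.range K, (-1 : ℝ) ^ l := by
    rw [Finset.sum_mul_sum]
    simp only [pow_add]
  rw [this, neg_one_geom_sum, if_pos hK, zero_mul]

lemma sum_diag (K : ℕ) :
    ∑ k ∈ Finset.range K, ∑ l ∈ Finset.range K, (if k = l then (1 : ℝ) else 0) = K := by
  have : ∀ k ∈ Finset.range K, ∑ l ∈ Finset.range K, (if k = l then (1 : ℝ) else 0) = 1 := by
    intro k hk
    rw [Finset.sum_ite_eq, if_pos hk]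
  rw [Finset.sum_congr rfl this]
  simp

lemma sum_zero {K : ℕ} (hK : 0 < K) :
    ∑ k ∈ Finset.range K, ∑ l ∈ Finset.range K, (if k = 0 ∧ l = 0 then (1 : ℝ) else 0) = 1 := by
  rw [Finset.sum_eq_single_of_mem 0 (Finset.mem_range.2 hK)]
  · rw [Finset.sum_eq_single_of_mem 0 (Finset.mem_range.2 hK)]
    · simp
    · intro l _ hl
      simp [hl]
  · intro k _ hk
    simp [hk]

/-- the Gaussian value -/
def gg (a b c d : ℤ) : ℝ := (CC a b * CC c d).re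

lemma CC_nat (k l : ℕ) : CC (k : ℤ) (l : ℤ) = if k = 0 ∧ l = 0 then 1 else 0 := by
  unfold CC
  by_cases h : k = 0 ∧ l = 0
  · obtain ⟨rfl, rfl⟩ := h; simp
  · rw [if_neg h, if_neg (by omega)]

lemma CC_neg (k l : ℕ) : CC (-(k : ℤ)) (-(l : ℤ)) = if k = 0 ∧ l = 0 then 1 else 0 := by
  unfold CC
  by_cases h : k = 0 ∧ l = 0
  · obtain ⟨rfl, rfl⟩ := h; simp
  · rw [if_neg h, if_neg (by omega)]

lemma CC_pn (k l : ℕ) : CC (k : ℤ) (-(l : ℤ)) = if k = l then (-1) ^ k else 0 := by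
  unfold CC
  by_cases h : k = l
  · subst h; simp
  · rw [if_neg h, if_neg (by omega)]

lemma CC_np (k l : ℕ) : CC (-(k : ℤ)) (l : ℤ) = if k = l then (-1) ^ k else 0 := by
  unfold CC
  by_cases h : k = l
  · subst h; simp
  · rw [if_neg h, if_neg (by omega)]

lemma sgs (k : ℕ) : ((-1 : ℂ) ^ k) * (-1 : ℂ) ^ k = 1 := by
  rw [← mul_pow]; norm_num

lemma gg1 (k l : ℕ) : (-1 : ℝ) ^ (k + l) * gg k l (-k) (-l) = if k = 0 ∧ l = 0 then 1 else 0 := by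
  unfold gg
  rw [CC_nat, CC_neg]
  by_cases h : k = 0 ∧ l = 0
  · obtain ⟨rfl, rfl⟩ := h; simp
  · simp [h]

lemma gg2 (k l : ℕ) : (-1 : ℝ) ^ (k + l) * gg k (-l) (-k) l = if k = l then 1 else 0 := by
  unfold gg
  rw [CC_pn, CC_np]
  by_cases h : k = l
  · subst h
    rw [if_pos rfl, if_pos rfl, sgs, one_re, mul_one]
    exact Even.neg_one_pow ⟨k, rfl⟩
  · simp [h]

lemma gg3 (k l : ℕ) : gg k (-k) l (-l) = (-1 : ℝ) ^ (k + l) := by
  unfold gg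
  rw [CC_pn, CC_pn, if_pos rfl, if_pos rfl, ← pow_add]
  have : ((-1 : ℂ) ^ (k + l)) = (((-1 : ℝ) ^ (k + l) : ℝ) : ℂ) := by push_cast; rfl
  rw [this, ofReal_re]

lemma GGk (k l : ℕ) : (Pool.Agent.W745.RW.GG (k : ℤ) (-k) l (-l)).re = (-1 : ℝ) ^ (k + l) +
    (if k = 0 ∧ l = 0 then 1 else 0) + (if k = l then 1 else 0) := by
  unfold Pool.Agent.W745.RW.GG
  rw [add_re, add_re]
  have e1 := gg3 k l
  unfold gg at e1
  rw [e1, CC_nat, CC_neg, CC_pn, CC_np]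
  congr 1
  · congr 1
    by_cases h : k = 0 ∧ l = 0
    · simp [h]
    · simp [h]
  · by_cases h : k = l
    · subst h
      rw [if_pos rfl, if_pos rfl, sgs, one_re]
    · simp [h]

lemma epsk (k l : ℕ) : Pool.Agent.W745.RW.eps (k : ℤ) (-k) l (-l) =
    (((1 + 2 * (-1 : ℝ) ^ (k + l)) / 3 : ℝ) : ℂ) := by
  unfold Pool.Agent.W745.RW.eps
  by_cases h : Even (k + l)
  · rw [h.neg_one_pow]
    rw [Nat.even_iff] at h
    rw [if_pos (by omega)]
    norm_num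
  · rw [(Nat.not_even_iff_odd.1 h).neg_one_pow]
    rw [Nat.even_iff] at h
    rw [if_neg (by omega)]
    norm_num

lemma CC_le (a b : ℤ) : ‖CC a b‖ ≤ 1 := by
  unfold CC
  split_ifs <;> simp

lemma GG_le (a b c d : ℤ) : ‖Pool.Agent.W745.RW.GG a b c d‖ ≤ 3 := by
  unfold Pool.Agent.W745.RW.GG
  have h : ∀ a b c d : ℤ, ‖CC a b * CC c d‖ ≤ 1 := fun a b c d => by
    rw [norm_mul]
    exact mul_le_one₀ (CC_le a b) (norm_nonneg _) (CC_le c d)
  calc _ ≤ ‖CC a b * CC c d‖ + ‖CC a c * CC b d‖ + ‖CC a d * CC b c‖ := norm_add₃_le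
    _ ≤ 1 + 1 + 1 := by
      have := h a b c d; have := h a c b d; have := h a d b c
      linarith
    _ = 3 := by norm_num

lemma CC_sh (a b : ℤ) : CC (a + 1) b + CC a (b + 1) = 0 := by
  unfold CC
  by_cases h : a + b + 1 = 0
  · rw [if_pos (by omega), if_pos (by omega)]
    rcases Nat.even_or_odd a.natAbs with h1 | h1
    · have h2 : Odd (a + 1).natAbs := by
        rw [Nat.even_iff] at h1; rw [Nat.odd_iff]; omega
      rw [h1.neg_one_pow, h2.neg_one_pow]; ring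
    · have h2 : Even (a + 1).natAbs := by
        rw [Nat.odd_iff] at h1; rw [Nat.even_iff]; omega
      rw [h1.neg_one_pow, h2.neg_one_pow]; ring
  · rw [if_neg (by omega), if_neg (by omega)]; ring

variable {Ω : Set ℂ} {lam mu : ℕ → ℝ} {u v : ℕ → ℂ → ℝ} {φ : ℂ → ℝ}

/-- the weight -/
def wt (φ : ℂ → ℝ) (z : ℂ) : ℝ := φ z / z.im ^ 2

/-- the fourth moment -/
def M4 (φ : ℂ → ℝ) (u : ℂ → ℝ) : ℝ := ∫ z, wt φ z * u z ^ 4

lemma wtTF (hΩ : IsOpen Ω) (hU : ∀ z ∈ Ω, 0 < z.im) (hφ : TF Ω φ) : TF Ω (wt φ) := by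
  have sy : ContDiffOn ℝ ∞ (fun z : ℂ => (z.im ^ 2)⁻¹) Ω := by
    refine ContDiffOn.inv ((imCLM.contDiff.pow 2).contDiffOn) fun z hz => ?_
    exact pow_ne_zero 2 (hU z hz).ne'
  exact TF.mulc hΩ hφ sy

lemma FM_J2 (lam : ℝ) (u : ℂ → ℝ) (φ : ℂ → ℝ) (a b c d : ℤ) :
    FM lam u φ a b c d = J2 (wt φ) lam lam u u a b c d := by
  unfold FM J2 wt
  congr 1; funext z; ring

lemma J0 (lam : ℝ) (u : ℂ → ℝ) (φ : ℂ → ℝ) : J2 (wt φ) lam lam u u 0 0 0 0 = (M4 φ u : ℂ) := by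
  unfold J2 M4
  rw [← integral_complex_ofReal]
  congr 1; funext z
  have : FW lam u 0 z = (u z : ℂ) := rfl
  rw [this]
  push_cast; ring

/-- the bound of the mixed moments -/
lemma nn_le (H : QS Ω lam u) (hΩ : IsOpen Ω) (hU : ∀ z ∈ Ω, 0 < z.im)
    (hφ : TF Ω φ) (h0 : ∀ z, 0 ≤ φ z) (a b : ℤ) :
    ∀ᶠ n in atTop, nn (wt φ) (lam n) (u n) a b ≤ M4 φ (u n) + 1 := by
  have key := (hyp_fourth hΩ hU H.pos H.lim H.sm H.eq H.qe hφ).2.2 h0 a b (-a) (-b) 1 one_pos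
  have hw : ∀ z, 0 ≤ wt φ z := fun z => div_nonneg (h0 z) (sq_nonneg _)
  filter_upwards [key] with n hn
  have e1 : FM (lam n) (u n) φ a b (-a) (-b) =
      (((-1 : ℝ) ^ (a.natAbs + b.natAbs) * nn (wt φ) (lam n) (u n) a b : ℝ) : ℂ) := by
    rw [FM_J2]
    unfold J2 nn
    rw [← integral_const_mul, ← integral_complex_ofReal]
    congr 1; funext z
    by_cases hz : z ∈ Ω
    · rw [H.ng hΩ hU a n hz, H.ng hΩ hU b n hz]
      have e : ∀ x : ℂ, ((‖x‖ : ℝ) : ℂ) ^ 2 = x * (starRingEnd ℂ) x := fun x => by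
        rw [mul_conj, normSq_eq_norm_sq]; push_cast; rfl
      push_cast
      rw [mul_pow, e, e, pow_add]
      ring
    · have : wt φ z = 0 := by
        unfold wt; rw [TF.zero hφ hz, zero_div]
      rw [this]; simp
  have e2 : ‖FM (lam n) (u n) φ a b (-a) (-b)‖ = nn (wt φ) (lam n) (u n) a b := by
    rw [e1, norm_real, norm_mul, norm_pow, norm_neg, norm_one, one_pow, one_mul,
      Real.norm_eq_abs, abs_of_nonneg]
    exact integral_nonneg fun z => mul_nonneg (hw z) (sq_nonneg _)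
  have hm : 0 ≤ ∫ z, φ z / z.im ^ 2 := integral_nonneg fun z => hw z
  have e3 : ‖Pool.Agent.W745.RW.GG a b (-a) (-b) * ((∫ z, φ z / z.im ^ 2 : ℝ) : ℂ)‖ ≤
      3 * ∫ z, φ z / z.im ^ 2 := by
    rw [norm_mul, norm_real, Real.norm_eq_abs, abs_of_nonneg hm]
    exact mul_le_mul_of_nonneg_right (GG_le _ _ _ _) hm
  have e4 := norm_le_norm_add_norm_sub' (FM (lam n) (u n) φ a b (-a) (-b))
    (Pool.Agent.W745.RW.GG a b (-a) (-b) * ((∫ z, φ z / z.im ^ 2 : ℝ) : ℂ))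
  rw [e2] at e4
  have e5 : M4 φ (u n) = ∫ z, φ z / z.im ^ 2 * u n z ^ 4 := rfl
  rw [e5]
  linarith

/-- the asymptotic value of the alternating sums -/
lemma Slim (H : QS Ω lam u) (hΩ : IsOpen Ω) (hU : ∀ z ∈ Ω, 0 < z.im)
    (hφ : TF Ω φ) {K : ℕ} (hK : Even K) (hK0 : 0 < K) :
    Tendsto (fun n => ∑ k ∈ Finset.range K, ∑ l ∈ Finset.range K,
      jr (wt φ) lam lam u u k (-k) l (-l) n - ((K : ℝ) ^ 2 / 3 * M4 φ (u n))) atTop
      (𝓝 (((K : ℝ) + 1 - (K : ℝ) ^ 2) * ∫ z, wt φ z)) := by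
  have key := (hyp_fourth hΩ hU H.pos H.lim H.sm H.eq H.qe hφ).2.1
  have h1 : ∀ k l : ℕ, Tendsto (fun n => jr (wt φ) lam lam u u k (-k) l (-l) n -
      (1 + 2 * (-1 : ℝ) ^ (k + l)) / 3 * M4 φ (u n)) atTop
      (𝓝 (((-1 : ℝ) ^ (k + l) + (if k = 0 ∧ l = 0 then 1 else 0) + (if k = l then 1 else 0) -
        (1 + 2 * (-1 : ℝ) ^ (k + l))) * ∫ z, wt φ z)) := by
    intro k l
    have h2 := key k (-k) l (-l) 0 (by ring)
    have h3 := (continuous_re.tendsto _).comp h2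
    have e1 : ((Pool.Agent.W745.RW.GG (k : ℤ) (-k) l (-l) - Pool.Agent.W745.RW.eps (k : ℤ) (-k) l (-l) *
        Pool.Agent.W745.RW.GG (2 * 0) 0 0 0) * ((∫ z, φ z / z.im ^ 2 : ℝ) : ℂ)).re =
        ((-1 : ℝ) ^ (k + l) + (if k = 0 ∧ l = 0 then 1 else 0) + (if k = l then 1 else 0) -
        (1 + 2 * (-1 : ℝ) ^ (k + l))) * ∫ z, wt φ z := by
      have g0 : Pool.Agent.W745.RW.GG (2 * 0) 0 0 0 = ((3 : ℝ) : ℂ) := by
        simp [Pool.Agent.W745.RW.GG, CC]; norm_num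
      rw [re_mul_ofReal, sub_re, GGk, epsk, g0, ← ofReal_mul, ofReal_re]
      have : ∫ z, wt φ z = ∫ z, φ z / z.im ^ 2 := rfl
      rw [this]
      ring
    rw [e1] at h3
    refine h3.congr fun n => ?_
    show (FM (lam n) (u n) φ k (-k) l (-l) - Pool.Agent.W745.RW.eps (k : ℤ) (-k) l (-l) *
      FM (lam n) (u n) φ (2 * 0) 0 0 0).re = _
    rw [mul_zero, FM_J2, FM_J2, J0, epsk, sub_re, ← ofReal_mul, ofReal_re]
    rfl
  have h4 := tendsto_finset_sum (Finset.range K) fun k _ =>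
    tendsto_finset_sum (Finset.range K) fun l _ => h1 k l
  have e2 : ∑ k ∈ Finset.range K, ∑ l ∈ Finset.range K,
      ((-1 : ℝ) ^ (k + l) + (if k = 0 ∧ l = 0 then 1 else 0) + (if k = l then 1 else 0) -
        (1 + 2 * (-1 : ℝ) ^ (k + l))) * ∫ z, wt φ z =
      ((K : ℝ) + 1 - (K : ℝ) ^ 2) * ∫ z, wt φ z := by
    simp only [← Finset.sum_mul]
    congr 1
    simp only [Finset.sum_sub_distrib, Finset.sum_add_distrib, ← Finset.mul_sum]
    rw [sum_sign hK, sum_diag, sum_zero hK0]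
    simp
    ring
  rw [e2] at h4
  refine h4.congr fun n => ?_
  simp only [Finset.sum_sub_distrib, ← Finset.sum_mul]
  congr 2
  simp only [← Finset.sum_div, Finset.sum_add_distrib, ← Finset.mul_sum]
  rw [sum_sign hK]
  simp
  ring

end

end Pool.Agent.R314.JN
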