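import Pool.Agent.R314.JN.Low3

/-!
# The lower bound for the joint fourth moment: assembly
-/

set_option autoImplicit false
open MeasureTheory Filter Topology Complex
open scoped ContDiff

namespace Pool.Agent.R314.JN

open Pool.Agent.W745.RW Pool.Agent.TH294.RS Pool.Agent.Y265.HY

noncomputable section

variable {Ω : Set ℂ} {lam mu : ℕ → ℝ} {u v : ℕ → ℂ → ℝ} {φ : ℂ → ℝ}

/-- the normalising factor -/
def NN (φ : ℂ → ℝ) (u v : ℂ → ℝ) : ℝ := √((1 + M4 φ u) * (1 + M4 φ v))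

lemma M4_nonneg (h0 : ∀ z, 0 ≤ φ z) (u : ℂ → ℝ) : 0 ≤ M4 φ u :=
  integral_nonneg fun z => mul_nonneg (div_nonneg (h0 z) (sq_nonneg _)) (by positivity)

lemma NN_one (h0 : ∀ z, 0 ≤ φ z) (u v : ℂ → ℝ) : 1 ≤ NN φ u v := by
  unfold NN
  rw [Real.one_le_sqrt]
  have := M4_nonneg h0 u; have := M4_nonneg h0 v
  nlinarith [mul_nonneg (M4_nonneg h0 u) (M4_nonneg h0 v)]

/-- division by a factor at least `1` -/
lemma div_null {x N : ℕ → ℝ} (hx : Tendsto x atTop (𝓝 0)) (hN : ∀ n, 1 ≤ N n) :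
    Tendsto (fun n => x n / N n) atTop (𝓝 0) := by
  rw [tendsto_zero_iff_norm_tendsto_zero] at hx ⊢
  refine squeeze_zero (fun n => norm_nonneg _) (fun n => ?_) hx
  rw [norm_div, Real.norm_eq_abs (N n), abs_of_pos (by linarith [hN n])]
  exact div_le_self (norm_nonneg _) (hN n)

/-- **the relation of the joint moments**, normalised -/
lemma rel (H : QS Ω lam u) (H' : QS Ω mu v) (hΩ : IsOpen Ω) (hU : ∀ z ∈ Ω, 0 < z.im)
    (hφ : TF Ω φ) (h0 : ∀ z, 0 ≤ φ z) (hr : Tendsto (fun n => mu n / lam n) atTop (𝓝 1))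
    (k l : ℤ) :
    Tendsto (fun n => (-1 : ℝ) ^ (k + l) *
      ((jr (wt φ) lam mu u v k l (-k) (-l) n - gg k l (-k) (-l) * ∫ z, wt φ z) / NN φ (u n) (v n) +
      (jr (wt φ) lam mu u v k (-l) (-k) l n - gg k (-l) (-k) l * ∫ z, wt φ z) / NN φ (u n) (v n)) -
      ((jr (wt φ) lam mu u v 0 0 0 0 n - gg 0 0 0 0 * ∫ z, wt φ z) / NN φ (u n) (v n) +
      (jr (wt φ) lam mu u v k (-k) l (-l) n - gg k (-k) l (-l) * ∫ z, wt φ z) / NN φ (u n) (v n)))
      atTop (𝓝 0) := by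
  have hρ := wtTF hΩ hU hφ
  have hw : ∀ z, 0 ≤ wt φ z := fun z => div_nonneg (h0 z) (sq_nonneg _)
  have hN : ∀ n, 1 ≤ NN φ (u n) (v n) := fun n => NN_one h0 _ _
  set m : ℝ := ∫ z, wt φ z with hm
  -- comparability
  obtain ⟨A, hA⟩ : ∃ A : ℝ, ∀ n, mu n / lam n ≤ A := by
    obtain ⟨A, hA⟩ := hr.bddAbove_range
    exact ⟨A, fun n => hA ⟨n, rfl⟩⟩
  have hr' : Tendsto (fun n => lam n / mu n) atTop (𝓝 1) := by
    have := hr.inv₀ one_ne_zero
    rw [inv_one] at this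
    exact this.congr fun n => inv_div _ _
  obtain ⟨A', hA'⟩ : ∃ A : ℝ, ∀ n, lam n / mu n ≤ A := by
    obtain ⟨A, hA⟩ := hr'.bddAbove_range
    exact ⟨A, fun n => hA ⟨n, rfl⟩⟩
  have h1 : ∀ n, lam n ≤ max A A' * mu n := fun n =>
    (div_le_iff₀ (H'.pos n)).1 ((hA' n).trans (le_max_right _ _))
  have h2 : ∀ n, mu n ≤ max A A' * lam n := fun n =>
    (div_le_iff₀ (H.pos n)).1 ((hA n).trans (le_max_left _ _))
  have L := fun a b c d => lads H H' hΩ hU hρ h1 h2 a b c d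
  have hbd : ∀ a b c d : ℤ, ∀ᶠ n in atTop, |jr (wt φ) lam mu u v a b c d n / NN φ (u n) (v n)| ≤ 1 := by
    intro a b c d
    filter_upwards [nn_le H hΩ hU hφ h0 a b, nn_le H' hΩ hU hφ h0 c d] with n hn hn'
    have e1 := jr_cs H H' hΩ hU hρ hw n a b c d
    have p1 : 0 ≤ nn (wt φ) (lam n) (u n) a b :=
      integral_nonneg fun z => mul_nonneg (hw z) (sq_nonneg _)
    have p2 : 0 ≤ nn (wt φ) (mu n) (v n) c d :=
      integral_nonneg fun z => mul_nonneg (hw z) (sq_nonneg _)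
    have e2 : jr (wt φ) lam mu u v a b c d n ^ 2 ≤ (1 + M4 φ (u n)) * (1 + M4 φ (v n)) := by
      refine e1.trans (mul_le_mul (by linarith) (by linarith) p2 ?_)
      have := M4_nonneg h0 (u n); linarith
    have e3 : |jr (wt φ) lam mu u v a b c d n| ≤ NN φ (u n) (v n) := Real.abs_le_sqrt e2
    have := hN n
    rw [abs_div, abs_of_pos (show 0 < NN φ (u n) (v n) by linarith)]
    exact (div_le_one (by linarith)).2 e3
  have hκ : Tendsto (fun n => 1 - √(mu n) / √(lam n)) atTop (𝓝 0) := by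
    have h3 := (Real.continuous_sqrt.tendsto _).comp hr
    rw [Real.sqrt_one] at h3
    have h4 := h3.const_sub 1
    rw [sub_self] at h4
    refine h4.congr fun n => ?_
    show 1 - √(mu n / lam n) = _
    rw [Real.sqrt_div' _ (H.pos n).le]
  refine relN (fun a b c d n => (jr (wt φ) lam mu u v a b c d n - gg a b c d * m) /
    NN φ (u n) (v n)) ?_ ?_ ?_ ?_ ?_ k l
  · intro a b c d
    funext n
    rw [jr12]
    have : gg a b c d = gg b a c d := by
      unfold gg CC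
      by_cases h : a + b = 0
      · rw [if_pos h, if_pos (show b + a = 0 by omega)]
        have : a.natAbs = b.natAbs := by omega
        rw [this]
      · rw [if_neg h, if_neg (show ¬ (b + a = 0) by omega)]
    rw [this]
  · intro a b c d
    funext n
    rw [jr34]
    have : gg a b c d = gg a b d c := by
      unfold gg CC
      congr 2
      by_cases h : c + d = 0
      · rw [if_pos h, if_pos (show d + c = 0 by omega)]
        have : c.natAbs = d.natAbs := by omega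
        rw [this]
      · rw [if_neg h, if_neg (show ¬ (d + c = 0) by omega)]
    rw [this]
  · intro a b c d h
    funext n
    rw [jr_cj H H' hΩ hU hρ n a b c d h]
    have : gg (-a) (-b) (-c) (-d) = gg a b c d := by
      unfold gg CC
      simp only [Int.natAbs_neg]
      have e1 : (-a + -b = 0) = (a + b = 0) := by
        apply propext; constructor <;> intro h <;> omega
      have e2 : (-c + -d = 0) = (c + d = 0) := by
        apply propext; constructor <;> intro h <;> omega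
      simp only [e1, e2]
    rw [this]
  · intro a b c d
    have h3 := (continuous_re.tendsto _).comp (L a b c d).1
    have h4 : Tendsto (fun n => jr (wt φ) lam mu u v (a + 1) (b + 1) (c - 1) (d - 1) n +
        jr (wt φ) lam mu u v (a - 1) (b - 1) (c + 1) (d + 1) n -
        2 * jr (wt φ) lam mu u v a b c d n - (gg (a + 1) (b + 1) (c - 1) (d - 1) +
        gg (a - 1) (b - 1) (c + 1) (d + 1) - 2 * gg a b c d) * m) atTop (𝓝 0) := by
      have h5 : ((CC (a + 1) (b + 1) * CC (c - 1) (d - 1) + CC (a - 1) (b - 1) *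
          CC (c + 1) (d + 1) - 2 * CC a b * CC c d) * ((∫ z, wt φ z : ℝ) : ℂ)).re =
          (gg (a + 1) (b + 1) (c - 1) (d - 1) +
        gg (a - 1) (b - 1) (c + 1) (d + 1) - 2 * gg a b c d) * m := by
        unfold gg
        rw [re_mul_ofReal, sub_re, add_re]
        have : (2 * CC a b * CC c d).re = 2 * (CC a b * CC c d).re := by
          rw [mul_assoc]
          have : (2 : ℂ) = ((2 : ℝ) : ℂ) := by norm_num
          rw [this, re_ofReal_mul]
        rw [this]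
      rw [h5] at h3
      have h6 := h3.sub_const ((gg (a + 1) (b + 1) (c - 1) (d - 1) +
        gg (a - 1) (b - 1) (c + 1) (d + 1) - 2 * gg a b c d) * m)
      rw [sub_self] at h6
      refine h6.congr fun n => ?_
      congr 1
      show (J2 (wt φ) (lam n) (mu n) (u n) (v n) (a + 1) (b + 1) (c - 1) (d - 1) +
        J2 (wt φ) (lam n) (mu n) (u n) (v n) (a - 1) (b - 1) (c + 1) (d + 1) -
        2 * J2 (wt φ) (lam n) (mu n) (u n) (v n) a b c d).re = _
      have : (2 * J2 (wt φ) (lam n) (mu n) (u n) (v n) a b c d).re =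
          2 * (J2 (wt φ) (lam n) (mu n) (u n) (v n) a b c d).re := by
        have : (2 : ℂ) = ((2 : ℝ) : ℂ) := by norm_num
        rw [this, re_ofReal_mul]
      rw [sub_re, add_re, this]
      rfl
    refine (div_null h4 hN).congr fun n => ?_
    ring
  · intro a b c d
    have h3 := (continuous_re.tendsto _).comp (L a b c d).2
    rw [zero_re] at h3
    have h4 : Tendsto (fun n => jr (wt φ) lam mu u v (a + 1) b c d n +
        jr (wt φ) lam mu u v a (b + 1) c d n + √(mu n) / √(lam n) *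
        (jr (wt φ) lam mu u v a b (c + 1) d n + jr (wt φ) lam mu u v a b c (d + 1) n)) atTop
        (𝓝 0) := by
      refine h3.congr fun n => ?_
      show (J2 (wt φ) (lam n) (mu n) (u n) (v n) (a + 1) b c d +
        J2 (wt φ) (lam n) (mu n) (u n) (v n) a (b + 1) c d + (√(mu n) / √(lam n) : ℝ) *
        (J2 (wt φ) (lam n) (mu n) (u n) (v n) a b (c + 1) d +
        J2 (wt φ) (lam n) (mu n) (u n) (v n) a b c (d + 1))).re = _
      rw [add_re, add_re, re_ofReal_mul, add_re]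
      rfl
    have h5 := div_null h4 hN
    have bnd : ∀ a b c d : ℤ, Tendsto (fun n => (1 - √(mu n) / √(lam n)) *
        (jr (wt φ) lam mu u v a b c d n / NN φ (u n) (v n))) atTop (𝓝 0) := by
      intro a b c d
      have h6 := (tendsto_zero_iff_norm_tendsto_zero.1 hκ)
      rw [tendsto_zero_iff_norm_tendsto_zero]
      refine squeeze_zero' (Eventually.of_forall fun n => norm_nonneg _) ?_ h6
      filter_upwards [hbd a b c d] with n hn
      rw [norm_mul]
      exact mul_le_of_le_one_right (norm_nonneg _) hn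
    have h7 := (h5.add (bnd a b (c + 1) d)).add (bnd a b c (d + 1))
    rw [add_zero, add_zero] at h7
    have g0 : gg (a + 1) b c d + gg a (b + 1) c d = 0 := by
      unfold gg
      rw [← add_re, ← add_mul, CC_sh, zero_mul, zero_re]
    have g1 : gg a b (c + 1) d + gg a b c (d + 1) = 0 := by
      unfold gg
      rw [← add_re, ← mul_add, CC_sh, mul_zero, zero_re]
    refine h7.congr fun n => ?_
    have e1 : (jr (wt φ) lam mu u v (a + 1) b c d n - gg (a + 1) b c d * m) / NN φ (u n) (v n) +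
        (jr (wt φ) lam mu u v a (b + 1) c d n - gg a (b + 1) c d * m) / NN φ (u n) (v n) +
        (jr (wt φ) lam mu u v a b (c + 1) d n - gg a b (c + 1) d * m) / NN φ (u n) (v n) +
        (jr (wt φ) lam mu u v a b c (d + 1) n - gg a b c (d + 1) * m) / NN φ (u n) (v n) =
        (jr (wt φ) lam mu u v (a + 1) b c d n + jr (wt φ) lam mu u v a (b + 1) c d n +
        jr (wt φ) lam mu u v a b (c + 1) d n + jr (wt φ) lam mu u v a b c (d + 1) n) /
          NN φ (u n) (v n) - ((gg (a + 1) b c d + gg a (b + 1) c d) +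
          (gg a b (c + 1) d + gg a b c (d + 1))) * m / NN φ (u n) (v n) := by ring
    rw [e1, g0, g1]
    ring

/-- **the lower bound** -/
theorem low (H : QS Ω lam u) (H' : QS Ω mu v) (hΩ : IsOpen Ω) (hU : ∀ z ∈ Ω, 0 < z.im)
    (hφ : TF Ω φ) (h0 : ∀ z, 0 ≤ φ z) (hr : Tendsto (fun n => mu n / lam n) atTop (𝓝 1))
    {ε : ℝ} (hε : 0 < ε) : ∀ᶠ n in atTop,
      (∫ z, wt φ z) - 1 / 3 * √((M4 φ (u n) - 3 * (∫ z, wt φ z) + ε) *
        (M4 φ (v n) - 3 * (∫ z, wt φ z) + ε)) - ε * NN φ (u n) (v n) ≤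
      ∫ z, wt φ z * (u n z ^ 2 * v n z ^ 2) := by
  have hρ := wtTF hΩ hU hφ
  have hw : ∀ z, 0 ≤ wt φ z := fun z => div_nonneg (h0 z) (sq_nonneg _)
  set m : ℝ := ∫ z, wt φ z with hm
  have hm0 : 0 ≤ m := integral_nonneg hw
  have hN : ∀ n, 1 ≤ NN φ (u n) (v n) := fun n => NN_one h0 _ _
  -- choice of K
  obtain ⟨M, hM⟩ := exists_nat_gt (12 * (m + 1) / ε)
  set K : ℕ := 2 * (M + 1) with hKdef
  have hK : Even K := ⟨M + 1, by omega⟩
  have hK0 : 0 < K := by omega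
  have hK1 : (1 : ℝ) ≤ K := by exact_mod_cast hK0
  have hKε : 12 * (m + 1) ≤ ε * K := by
    rw [div_lt_iff₀ hε] at hM
    have : (M : ℝ) ≤ K := by rw [hKdef]; push_cast; linarith [(Nat.cast_nonneg M : (0 : ℝ) ≤ M)]
    nlinarith
  have hK2 : ((K : ℝ) + 1) * (m + 1) ≤ ε / 6 * (K : ℝ) ^ 2 := by
    have h1 : ((K : ℝ) + 1) ≤ 2 * K := by linarith
    have h2 : ((K : ℝ) + 1) * (m + 1) ≤ 2 * K * (m + 1) :=
      mul_le_mul_of_nonneg_right h1 (by linarith)
    nlinarith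
  -- the sum of the relations
  have R := tendsto_finset_sum (Finset.range K) fun k _ =>
    tendsto_finset_sum (Finset.range K) fun l _ => rel H H' hΩ hU hφ h0 hr (k : ℤ) (l : ℤ)
  simp only [Finset.sum_const_zero] at R
  have Lu := Slim H hΩ hU hφ hK hK0
  have Lv := Slim H' hΩ hU hφ hK hK0
  have evu := Lu.eventually (gt_mem_nhds (lt_add_one _))
  have evv := Lv.eventually (gt_mem_nhds (lt_add_one _))
  have evR := R.eventually (Metric.ball_mem_nhds _ (show (0 : ℝ) < ε / 6 by linarith))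
  filter_upwards [evu, evv, evR] with n hu hv hR
  set S1 : ℝ := ∑ k ∈ Finset.range K, ∑ l ∈ Finset.range K, (-1 : ℝ) ^ ((k : ℤ) + (l : ℤ)) *
      (jr (wt φ) lam mu u v k l (-k) (-l) n + jr (wt φ) lam mu u v k (-l) (-k) l n) with hS1
  set S2 : ℝ := ∑ k ∈ Finset.range K, ∑ l ∈ Finset.range K,
    jr (wt φ) lam mu u v k (-k) l (-l) n with hS2
  set Su : ℝ := ∑ k ∈ Finset.range K, ∑ l ∈ Finset.range K,
    jr (wt φ) lam lam u u k (-k) l (-l) n with hSu
  set Sv : ℝ := ∑ k ∈ Finset.range K, ∑ l ∈ Finset.range K,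
    jr (wt φ) mu mu v v k (-k) l (-l) n with hSv
  have hS1p : 0 ≤ S1 := jr_pos H H' hΩ hU hρ hw n K
  obtain ⟨hcs, hSu0, hSv0⟩ := jr_cs2 H H' hΩ hU hρ hw n K
  rw [← hS2, ← hSu, ← hSv] at hcs
  have j0 : jr (wt φ) lam mu u v 0 0 0 0 n = ∫ z, wt φ z * (u n z ^ 2 * v n z ^ 2) := by
    rw [jr_eq H H' hΩ hU hρ]
    congr 1; funext z
    congr 1
    have e1 : FW (lam n) (u n) 0 z = (u n z : ℂ) := rfl
    have e2 : FW (mu n) (v n) 0 z = (v n z : ℂ) := rfl
    unfold q2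
    rw [e1, e2]
    have : (u n z : ℂ) * (u n z : ℂ) * ((v n z : ℂ) * (v n z : ℂ)) =
        ((u n z ^ 2 * v n z ^ 2 : ℝ) : ℂ) := by push_cast; ring
    rw [this, ofReal_re]
  set N : ℝ := NN φ (u n) (v n) with hNdef
  have hN1 : 1 ≤ N := hN n
  have hNp : 0 < N := by linarith
  have g00 : gg 0 0 0 0 = 1 := by simp [gg, CC]
  -- evaluation of the sum
  have E : ∑ k ∈ Finset.range K, ∑ l ∈ Finset.range K, ((-1 : ℝ) ^ ((k : ℤ) + (l : ℤ)) *
      ((jr (wt φ) lam mu u v k l (-k) (-l) n - gg k l (-k) (-l) * m) / N +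
      (jr (wt φ) lam mu u v k (-l) (-k) l n - gg k (-l) (-k) l * m) / N) -
      ((jr (wt φ) lam mu u v 0 0 0 0 n - gg 0 0 0 0 * m) / N +
      (jr (wt φ) lam mu u v k (-k) l (-l) n - gg k (-k) l (-l) * m) / N)) =
      (S1 - (K + 1) * m - (K : ℝ) ^ 2 * (jr (wt φ) lam mu u v 0 0 0 0 n - m) - S2) / N := by
    have e1 : ∀ k l : ℕ, ((-1 : ℝ) ^ ((k : ℤ) + (l : ℤ)) *
      ((jr (wt φ) lam mu u v k l (-k) (-l) n - gg k l (-k) (-l) * m) / N +
      (jr (wt φ) lam mu u v k (-l) (-k) l n - gg k (-l) (-k) l * m) / N) -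
      ((jr (wt φ) lam mu u v 0 0 0 0 n - gg 0 0 0 0 * m) / N +
      (jr (wt φ) lam mu u v k (-k) l (-l) n - gg k (-k) l (-l) * m) / N)) =
      ((-1 : ℝ) ^ ((k : ℤ) + (l : ℤ)) *
      (jr (wt φ) lam mu u v k l (-k) (-l) n + jr (wt φ) lam mu u v k (-l) (-k) l n) -
      ((if k = 0 ∧ l = 0 then 1 else 0) + (if k = l then 1 else 0)) * m -
      (jr (wt φ) lam mu u v 0 0 0 0 n - m) - (jr (wt φ) lam mu u v k (-k) l (-l) n -
        (-1 : ℝ) ^ (k + l) * m)) / N := by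
      intro k l
      have s1 : ((-1 : ℝ) ^ ((k : ℤ) + (l : ℤ))) = (-1 : ℝ) ^ (k + l) := by
        rw [← Nat.cast_add, zpow_natCast]
      have h1 := gg1 k l
      have h2 := gg2 k l
      have h3 := gg3 k l
      rw [s1, g00]
      linear_combination (-(m / N)) * h1 - (m / N) * h2 + (m / N) * h3
    simp only [e1]
    simp only [← Finset.sum_div, Finset.sum_sub_distrib, ← Finset.sum_mul, Finset.sum_add_distrib]
    rw [sum_sign hK, sum_diag, sum_zero hK0]
    simp only [Finset.sum_const, Finset.card_range, nsmul_eq_mul, smul_eq_mul]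
    rw [← hS1, ← hS2]
    ring
  rw [Real.dist_eq, sub_zero] at hR
  have hR' : |(S1 - (K + 1) * m - (K : ℝ) ^ 2 * (jr (wt φ) lam mu u v 0 0 0 0 n - m) - S2) / N| <
      ε / 6 := by
    rw [← E]
    exact hR
  rw [j0] at hR'
  set I : ℝ := ∫ z, wt φ z * (u n z ^ 2 * v n z ^ 2) with hI
  have hR2 : S1 - (K + 1) * m - (K : ℝ) ^ 2 * (I - m) - S2 ≤ ε / 6 * N := by
    have := (abs_lt.1 hR').2
    rw [div_lt_iff₀ hNp] at this
    linarith
  -- the bound of S2
  set Fu : ℝ := M4 φ (u n) - 3 * m + ε with hFu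
  set Fv : ℝ := M4 φ (v n) - 3 * m + ε with hFv
  have K2 : (0 : ℝ) < (K : ℝ) ^ 2 := by positivity
  have k1 : ((K : ℝ) + 1) * (m + 1) = ((K : ℝ) + 1) * m + 1 + K := by ring
  have k2 : (0 : ℝ) < ε * (K : ℝ) ^ 2 := by positivity
  rw [← hm] at hu hv
  have k3 : (((K : ℝ) + 1 - (K : ℝ) ^ 2) * m) = ((K : ℝ) + 1) * m - (K : ℝ) ^ 2 * m := by ring
  rw [k3] at hu hv
  have bu : Su ≤ (K : ℝ) ^ 2 / 3 * Fu := by
    have e : (K : ℝ) ^ 2 / 3 * Fu = (K : ℝ) ^ 2 / 3 * M4 φ (u n) - (K : ℝ) ^ 2 * m +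
      ε * (K : ℝ) ^ 2 / 3 := by rw [hFu]; ring
    rw [e]
    linarith
  have bv : Sv ≤ (K : ℝ) ^ 2 / 3 * Fv := by
    have e : (K : ℝ) ^ 2 / 3 * Fv = (K : ℝ) ^ 2 / 3 * M4 φ (v n) - (K : ℝ) ^ 2 * m +
      ε * (K : ℝ) ^ 2 / 3 := by rw [hFv]; ring
    rw [e]
    linarith
  have bS2 : S2 ≤ (K : ℝ) ^ 2 / 3 * √(Fu * Fv) := by
    have h1 : S2 ^ 2 ≤ ((K : ℝ) ^ 2 / 3) ^ 2 * (Fu * Fv) := by
      calc S2 ^ 2 ≤ Su * Sv := hcs
        _ ≤ ((K : ℝ) ^ 2 / 3 * Fu) * ((K : ℝ) ^ 2 / 3 * Fv) :=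
          mul_le_mul bu bv hSv0 (hSu0.trans bu)
        _ = _ := by ring
    have h2 := Real.abs_le_sqrt h1
    rw [Real.sqrt_mul (sq_nonneg _), Real.sqrt_sq (by positivity)] at h2
    exact (le_abs_self _).trans h2
  have fin : (K : ℝ) ^ 2 * (m - 1 / 3 * √(Fu * Fv) - ε * N) ≤ (K : ℝ) ^ 2 * I := by
    have a1 : ((K : ℝ) + 1) * m ≤ ε / 6 * (K : ℝ) ^ 2 := by linarith
    have a2 : ε / 6 * (K : ℝ) ^ 2 ≤ ε / 6 * (K : ℝ) ^ 2 * N :=
      le_mul_of_one_le_right (by positivity) hN1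
    have a3 : ε / 6 * N ≤ ε / 6 * (K : ℝ) ^ 2 * N := by
      have : (1 : ℝ) ≤ (K : ℝ) ^ 2 := one_le_pow₀ hK1
      have h5 : ε / 6 ≤ ε / 6 * (K : ℝ) ^ 2 := le_mul_of_one_le_right (by positivity) this
      exact mul_le_mul_of_nonneg_right h5 hNp.le
    have a4 : 0 ≤ ε * (K : ℝ) ^ 2 * N := by positivity
    have a5 : (K : ℝ) ^ 2 * (m - 1 / 3 * √(Fu * Fv) - ε * N) = (K : ℝ) ^ 2 * m -
      (K : ℝ) ^ 2 / 3 * √(Fu * Fv) - ε * (K : ℝ) ^ 2 * N := by ring
    have a6 : (K : ℝ) ^ 2 * (I - m) = (K : ℝ) ^ 2 * I - (K : ℝ) ^ 2 * m := by ring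
    rw [a5]
    rw [a6] at hR2
    have a7 : ε / 6 * (K : ℝ) ^ 2 * N = ε * (K : ℝ) ^ 2 * N / 6 := by ring
    rw [a7] at a2 a3
    linarith
  exact le_of_mul_le_mul_left fin K2

end

end Pool.Agent.R314.JN
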