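import Pool.Agent.Y265.HY.Z
import Pool.Agent.Y265.HY.SB8

/-!
# Null forms of two ladder systems

`w` and `v` are the ladders of two quantum ergodic sequences on the hyperbolic plane with the
semiclassical parameters `h` and `κ`, without a relation between them. Products of two exact
solutions of the same system define divergence free tensors, so that the null form of one tensor
of each system has a weak limit.
-/

set_option autoImplicit false
open MeasureTheory Filter Topology Complex Set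
open scoped ContDiff Real Manifold

namespace Pool.Agent.R314.JN

open Pool.Agent.W745.RW Pool.Agent.TH294.RS Pool.Agent.Y265.HY

noncomputable section

variable {B : Set ℂ} {h κ : ℕ → ℝ} {w v : ℤ → ℕ → ℂ → ℂ}

/-- the quartic null form of two systems -/
def Q5 (h κ : ℕ → ℝ) (f f' g g' : ℕ → ℂ → ℂ) (n : ℕ) (z : ℂ) : ℂ :=
  P h f n z * P h f' n z * (M κ g n z * M κ g' n z) +
      M h f n z * M h f' n z * (P κ g n z * P κ g' n z) -
      2 * (f n z * f' n z) * (g n z * g' n z)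

/-- its limit -/
def E5 (B : Set ℂ) (h κ : ℕ → ℝ) (f f' g g' : ℕ → ℂ → ℂ) (z : ℂ) : ℂ :=
  lm B (P h f) (P h f') z * lm B (M κ g) (M κ g') z +
  lm B (M h f) (M h f') z * lm B (P κ g) (P κ g') z - 2 * lm B f f' z * lm B g g' z

/-- **the null quartic of two systems** -/
theorem nq5 (H : SY B Complex.im h w) (H' : SY B Complex.im κ v) (hBU : B ⊆ UH)
    {f f' g g' : ℕ → ℂ → ℂ} (hf : EX B h w f)
    (hf' : EX B h w f') (hg : EX B κ v g) (hg' : EX B κ v g') :
    WN B (fun n z => Q5 h κ f f' g g' n z - E5 B h κ f f' g g' z) := by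
  have l : ∀ {p q : ℕ → ℂ → ℂ}, Dec B h w p → Dec B h w q →
      PL B (fun n z => p n z * q n z) (lm B p q) := fun hp hq => PL.mul H hp hq (lm_wl H hp hq)
  have l' : ∀ {p q : ℕ → ℂ → ℂ}, Dec B κ v p → Dec B κ v q →
      PL B (fun n z => p n z * q n z) (lm B p q) := fun hp hq => PL.mul H' hp hq (lm_wl H' hp hq)
  exact null_tri H.op hBU (fun n => hf.hc H hf' n) (fun n => hg.hc H' hg' n)
    (l hf.dec hf'.dec) (l (hf.dec.sP H) (hf'.dec.sP H)) (l (hf.dec.sM H) (hf'.dec.sM H))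
    (l' hg.dec hg'.dec) (l' (hg.dec.sP H') (hg'.dec.sP H')) (l' (hg.dec.sM H') (hg'.dec.sM H'))

lemma s1 {f f' g g' : ℕ → ℂ → ℂ}
    (hw : WN B (fun n z => Q5 h κ f f' g g' n z - E5 B h κ f f' g g' z)) :
    WN B (fun n z => Q5 h κ f' f g g' n z - E5 B h κ f' f g g' z) :=
  hw.congr fun n z _ => by
    simp only [Q5, E5]
    rw [lm_symm (P h f') (P h f), lm_symm (M h f') (M h f), lm_symm f' f]
    ring

lemma s2 {f f' g g' : ℕ → ℂ → ℂ}
    (hw : WN B (fun n z => Q5 h κ f f' g g' n z - E5 B h κ f f' g g' z)) :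
    WN B (fun n z => Q5 κ h g g' f f' n z - E5 B κ h g g' f f' z) :=
  hw.congr fun n z _ => by
    simp only [Q5, E5]
    ring

/-- multiplication by bounded scalars -/
lemma WN.bsc {F : ℕ → ℂ → ℂ} (hF : WN B F) {c : ℕ → ℝ} {C : ℝ} (hc : ∀ n, |c n| ≤ C) :
    WN B (fun n z => (c n : ℂ) * F n z) := by
  refine ⟨fun n => continuousOn_const.mul (hF.co n), fun φ hφ => ?_⟩
  have h1 := hF.nul φ hφ
  have h1' := tendsto_zero_iff_norm_tendsto_zero.1 h1
  show Tendsto _ atTop (𝓝 0)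
  rw [tendsto_zero_iff_norm_tendsto_zero]
  have h2 : Tendsto (fun n => C * ‖∫ z, (φ z : ℂ) * F n z‖) atTop (𝓝 0) := by
    have := h1'.const_mul C
    rwa [mul_zero] at this
  refine squeeze_zero (fun n => norm_nonneg _) (fun n => ?_) h2
  have e : ∫ z, (φ z : ℂ) * ((c n : ℂ) * F n z) = (c n : ℂ) * ∫ z, (φ z : ℂ) * F n z := by
    rw [← integral_const_mul]
    congr 1; funext z; ring
  rw [e, norm_mul, Complex.norm_real, Real.norm_eq_abs]
  exact mul_le_mul_of_nonneg_right (hc n) (norm_nonneg _)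

/-- quartic errors of one system against two factors of a system of comparable or lower
frequency -/
theorem hE5 (H : SY B Complex.im h w) (H' : SY B Complex.im κ v) (hBU : B ⊆ UH) {C : ℝ}
    (hC : ∀ n, h n ≤ C * κ n) {R f g : ℕ → ℂ → ℂ}
    (hR : LB B 1 R) (hf : RP B κ v f) (hg : RP B κ v g) :
    WN B (fun n z => (h n : ℂ) * (R n z * (f n z * g n z))) := by
  have h1 := hE4 H' hBU hR hf hg
  refine (WN.bsc h1 (c := fun n => h n / κ n) (C := C) fun n => ?_).congr fun n z _ => ?_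
  · rw [abs_of_pos (div_pos (H.hpos n) (H'.hpos n)), div_le_iff₀ (H'.hpos n)]
    exact hC n
  · have h2 : (κ n : ℂ) ≠ 0 := by exact_mod_cast (H'.hpos n).ne'
    push_cast
    field_simp

/-- multilinear extension of the null form -/
lemma ext5 (H : SY B Complex.im h w) (H' : SY B Complex.im κ v) (hBU : B ⊆ UH) {C : ℝ}
    (hC : ∀ n, h n ≤ C * κ n)
    {f f' g g' : ℕ → ℂ → ℂ} (hf : RP B h w f)
    (hf' : RP B h w f') (hg : RP B κ v g) (hg' : RP B κ v g')
    (base : ∀ p, EX B h w p → WN B (fun n z => Q5 h κ p f' g g' n z - E5 B h κ p f' g g' z)) :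
    WN B (fun n z => Q5 h κ f f' g g' n z - E5 B h κ f f' g g' z) := by
  have hB := H.op
  have pf' := hf'.dec.sP H
  have mf' := hf'.dec.sM H
  induction hf with
  | ex hf => exact base _ hf
  | @add f1 f2 r1 r2 h1 h2 =>
    refine (h1.add h2).congr fun n z hz => ?_
    have d1 := r1.dec
    have d2 := r2.dec
    have q1 := lm_add H d1 d2 hf'.dec hz
    have q2 : lm B (P h (fun n z => f1 n z + f2 n z)) (P h f') z =
        lm B (P h f1) (P h f') z + lm B (P h f2) (P h f') z := by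
      rw [lm_congr H ((d1.sP H).add (d2.sP H)) pf'
        (fun n z hz => P_add hB (d1.m H).sm (d2.m H).sm n hz) hz]
      exact lm_add H (d1.sP H) (d2.sP H) pf' hz
    have q3 : lm B (M h (fun n z => f1 n z + f2 n z)) (M h f') z =
        lm B (M h f1) (M h f') z + lm B (M h f2) (M h f') z := by
      rw [lm_congr H ((d1.sM H).add (d2.sM H)) mf'
        (fun n z hz => M_add hB (d1.m H).sm (d2.m H).sm n hz) hz]
      exact lm_add H (d1.sM H) (d2.sM H) mf' hz
    simp only [Q5, E5]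
    rw [q1, q2, q3, P_add hB (d1.m H).sm (d2.m H).sm n hz, M_add hB (d1.m H).sm (d2.m H).sm n hz]
    ring
  | @smul f1 c hc r1 h1 =>
    have d1 := r1.dec
    have m1 := d1.m H
    have e1 := (m1.smulc hB H.hlim (dd_sm hB hc)).smulc hB H.hlim (cxa H.sa)
    have e2 := (m1.smulc hB H.hlim (db_sm hB hc)).smulc hB H.hlim (cxa H.sa)
    have E1 := hE5 H H' hBU hC (LB.mul2 e1.lb (pf'.m H).lb) (hg.sM H') (hg'.sM H')
    have E2 := hE5 H H' hBU hC (LB.mul2 e2.lb (mf'.m H).lb) (hg.sP H') (hg'.sP H')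
    refine (((WNs hB h1 hc).add E1).add E2).congr fun n z hz => ?_
    have q1 := lm_smul H hc d1 hf'.dec hz
    have q2 : lm B (P h (fun n z => c z * f1 n z)) (P h f') z =
        c z * lm B (P h f1) (P h f') z := by
      rw [lm_congr H (((d1.sP H).smul hc).add (Dec.err e1)) pf'
        (fun n z hz => P_smul hB hc m1.sm n hz) hz, lm_add H ((d1.sP H).smul hc) (Dec.err e1) pf' hz,
        lm_smul H hc (d1.sP H) pf' hz, lm_err H e1 pf' hz, add_zero]
    have q3 : lm B (M h (fun n z => c z * f1 n z)) (M h f') z =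
        c z * lm B (M h f1) (M h f') z := by
      rw [lm_congr H (((d1.sM H).smul hc).add (Dec.err e2)) mf'
        (fun n z hz => M_smul hB hc m1.sm n hz) hz, lm_add H ((d1.sM H).smul hc) (Dec.err e2) mf' hz,
        lm_smul H hc (d1.sM H) mf' hz, lm_err H e2 mf' hz, add_zero]
    simp only [Q5, E5]
    rw [q1, q2, q3, P_smul hB hc m1.sm n hz, M_smul hB hc m1.sm n hz]
    ring
  | @err e he =>
    have e1 := he.sP hB H.hlim H.sa
    have e2 := he.sM hB H.hlim H.sa
    have E1 := hE5 H H' hBU hC (LB.mul2 e1.lb (pf'.m H).lb) (hg.sM H') (hg'.sM H')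
    have E2 := hE5 H H' hBU hC (LB.mul2 e2.lb (mf'.m H).lb) (hg.sP H') (hg'.sP H')
    have E3 := (hE5 H H' hBU hC (LB.mul2 he.lb (hf'.dec.m H).lb) hg hg').cmul 2
    refine ((E1.add E2).sub E3).congr fun n z hz => ?_
    have q1 := lm_err H he hf'.dec hz
    have q2 : lm B (P h (fun n z => (h n : ℂ) * e n z)) (P h f') z = 0 := by
      rw [lm_congr H (Dec.err e1) pf' (fun n z hz => P_h hB he.sm n hz) hz, lm_err H e1 pf' hz]
    have q3 : lm B (M h (fun n z => (h n : ℂ) * e n z)) (M h f') z = 0 := by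
      rw [lm_congr H (Dec.err e2) mf' (fun n z hz => M_h hB he.sm n hz) hz, lm_err H e2 mf' hz]
    simp only [Q5, E5]
    rw [q1, q2, q3, P_h hB he.sm n hz, M_h hB he.sm n hz]
    ring
  | @congr f1 f2 r1 e h1 =>
    refine h1.congr fun n z hz => ?_
    have d1 := r1.dec
    have q1 := lm_congr H d1 hf'.dec e hz
    have q2 : lm B (P h f2) (P h f') z = lm B (P h f1) (P h f') z :=
      lm_congr H (d1.sP H) pf' (fun n z hz => P_cg hB e n hz) hz
    have q3 : lm B (M h f2) (M h f') z = lm B (M h f1) (M h f') z :=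
      lm_congr H (d1.sM H) mf' (fun n z hz => M_cg hB e n hz) hz
    simp only [Q5, E5]
    rw [q1, q2, q3, P_cg hB e n hz, M_cg hB e n hz, e n z hz]

/-- the null form for combinations of exact solutions, comparable frequencies -/
theorem nqr (H : SY B Complex.im h w) (H' : SY B Complex.im κ v) (hBU : B ⊆ UH) {C : ℝ}
    (hC : ∀ n, h n ≤ C * κ n) (hC' : ∀ n, κ n ≤ C * h n)
    {f f' g g' : ℕ → ℂ → ℂ} (hf : RP B h w f)
    (hf' : RP B h w f') (hg : RP B κ v g) (hg' : RP B κ v g') :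
    WN B (fun n z => Q5 h κ f f' g g' n z - E5 B h κ f f' g g' z) := by
  refine ext5 H H' hBU hC hf hf' hg hg' fun p hp => ?_
  refine s1 (ext5 H H' hBU hC hf' (RP.ex hp) hg hg' fun p' hp' => ?_)
  refine s2 (ext5 H' H hBU hC' hg hg' (RP.ex hp') (RP.ex hp) fun q hq => ?_)
  refine s1 (ext5 H' H hBU hC' hg' (RP.ex hq) (RP.ex hp') (RP.ex hp) fun q' hq' => ?_)
  exact nq5 H' H hBU hq' hq hp' hp

/-- the null form of two ladders, comparable frequencies -/
theorem nWJ (H : SY B Complex.im h w) (H' : SY B Complex.im κ v) (hBU : B ⊆ UH) {C : ℝ}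
    (hC : ∀ n, h n ≤ C * κ n) (hC' : ∀ n, κ n ≤ C * h n) (h0 : EX B h w (w 0))
    (k0 : EX B κ v (v 0)) (a b c d : ℤ) :
    WN B (fun n z => w (a + 1) n z * w (b + 1) n z * v (c - 1) n z * v (d - 1) n z +
      w (a - 1) n z * w (b - 1) n z * v (c + 1) n z * v (d + 1) n z -
      2 * (w a n z * w b n z * v c n z * v d n z) -
      (CC (a + 1) (b + 1) * CC (c - 1) (d - 1) + CC (a - 1) (b - 1) * CC (c + 1) (d + 1) -
        2 * CC a b * CC c d)) := by
  have hB := H.op
  have key := nqr H H' hBU hC hC' (RP.W H h0 a) (RP.W H h0 b) (RP.W H' k0 c) (RP.W H' k0 d)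
  -- raising one ladder, lowering the other one
  have half : ∀ {h κ : ℕ → ℝ} {w v : ℤ → ℕ → ℂ → ℂ}, SY B Complex.im h w → SY B Complex.im κ v →
      (∀ n, h n ≤ C * κ n) → (∀ n, κ n ≤ C * h n) → EX B h w (w 0) → EX B κ v (v 0) →
      ∀ a b c d : ℤ, WN B (fun n z => P h (w a) n z * P h (w b) n z *
      (M κ (v c) n z * M κ (v d) n z) -
      w (a + 1) n z * w (b + 1) n z * v (c - 1) n z * v (d - 1) n z) := by
    intro h κ w v H H' hC hC' h0 k0 a b c d
    obtain ⟨e1, he1, g1⟩ := H.up a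
    obtain ⟨e2, he2, g2⟩ := H.up b
    obtain ⟨e3, he3, g3⟩ := H'.dn c
    obtain ⟨e4, he4, g4⟩ := H'.dn d
    have rP : ∀ k, RP B h w (P h (w k)) := fun k => (RP.W H h0 k).sP H
    have rM : ∀ k, RP B κ v (M κ (v k)) := fun k => (RP.W H' k0 k).sM H'
    have F1 := hE5 H H' hBU hC (LB.mul2 he1.lb (((rP b).dec.m H)).lb) (rM c) (rM d)
    have F2 := hE5 H H' hBU hC (LB.mul2 he2.lb (H.bd (a + 1)).lb) (rM c) (rM d)
    have F3 := hE5 H' H hBU hC' (LB.mul2 he3.lb ((rM d).dec.m H').lb) (RP.W H h0 (a + 1))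
      (RP.W H h0 (b + 1))
    have F4 := hE5 H' H hBU hC' (LB.mul2 he4.lb (H'.bd (c - 1)).lb) (RP.W H h0 (a + 1))
      (RP.W H h0 (b + 1))
    refine (((F1.add F2).add F3).sub F4).congr fun n z hz => ?_
    have c1 : P h (w a) n z = w (a + 1) n z + (h n : ℂ) * e1 n z := g1 n z hz
    have c2 : P h (w b) n z = w (b + 1) n z + (h n : ℂ) * e2 n z := g2 n z hz
    have c3 : M κ (v c) n z = - v (c - 1) n z + (κ n : ℂ) * e3 n z := g3 n z hz
    have c4 : M κ (v d) n z = - v (d - 1) n z + (κ n : ℂ) * e4 n z := g4 n z hz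
    linear_combination (P h (w b) n z * (M κ (v c) n z * M κ (v d) n z)) * c1 +
      (w (a + 1) n z * (M κ (v c) n z * M κ (v d) n z)) * c2 +
      (w (a + 1) n z * w (b + 1) n z * M κ (v d) n z) * c3 -
      (w (a + 1) n z * w (b + 1) n z * v (c - 1) n z) * c4
  refine ((key.sub (half H H' hC hC' h0 k0 a b c d)).sub
    (half H' H hC' hC k0 h0 c d a b)).congr fun n z hz => ?_
  simp only [Q5, E5]
  rw [PPW H a b hz, MMW H' c d hz, MMW H a b hz, PPW H' c d hz, lmW H a b hz, lmW H' c d hz]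
  ring

/-- the null form of the two sequences, any frequencies -/
theorem n0 (H : SY B Complex.im h w) (H' : SY B Complex.im κ v) (hBU : B ⊆ UH)
    (h0 : EX B h w (w 0)) (k0 : EX B κ v (v 0)) :
    WN B (fun n z => P h (w 0) n z ^ 2 * M κ (v 0) n z ^ 2 + M h (w 0) n z ^ 2 * P κ (v 0) n z ^ 2 -
      2 * (w 0 n z ^ 2 * v 0 n z ^ 2) + 2) := by
  refine (nq5 H H' hBU h0 h0 k0 k0).congr fun n z hz => ?_
  simp only [Q5, E5]
  rw [PPW H 0 0 hz, MMW H' 0 0 hz, MMW H 0 0 hz, PPW H' 0 0 hz, lmW H 0 0 hz, lmW H' 0 0 hz]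
  have e1 : CC (0 + 1) (0 + 1) = 0 := by unfold CC; simp
  have e2 : CC (0 - 1) (0 - 1) = 0 := by unfold CC; simp
  have e3 : CC 0 0 = 1 := by unfold CC; simp
  rw [e1, e2, e3]
  ring

/-- translation relations, comparable frequencies or the second system slower -/
lemma quad5 (H : SY B Complex.im h w) (H' : SY B Complex.im κ v) (hBU : B ⊆ UH) {C : ℝ}
    (hC : ∀ n, h n ≤ C * κ n) (k0 : EX B κ v (v 0)) (i j k l : ℤ) :
    WN B (fun n z => DP Complex.im (h n) (fun z => w i n z * w j n z * (v k n z * v l n z)) z) := by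
  have hB := H.op
  have hs : ∀ n, ContDiffOn ℝ ∞ (fun z => w i n z * w j n z * (v k n z * v l n z)) B := fun n =>
    (((H.bd i).sm n).mul ((H.bd j).sm n)).mul (((H'.bd k).sm n).mul ((H'.bd l).sm n))
  have w0 := hE5 H H' hBU hC (LB.mul2 (H.bd i).lb (H.bd j).lb) (RP.W H' k0 k) (RP.W H' k0 l)
  have h1 := parts' hB (G := fun n z => w i n z * w j n z * (v k n z * v l n z)) hs w0 H.sa 1
  have h2 := (parts' hB (G := fun n z => w i n z * w j n z * (v k n z * v l n z)) hs w0 H.sa I).cmul I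
  exact (h1.sub h2).congr fun n z _ => by simp only [DP, dd, dx, dy]; ring

/-- the translation relation of two ladders -/
lemma tr5 (H : SY B Complex.im h w) (H' : SY B Complex.im κ v) (hBU : B ⊆ UH) {C : ℝ}
    (hC : ∀ n, h n ≤ C * κ n) (h0 : EX B h w (w 0)) (k0 : EX B κ v (v 0)) (i j k l : ℤ) :
    WN B (fun n z => w (i + 1) n z * w j n z * v k n z * v l n z +
      w i n z * w (j + 1) n z * v k n z * v l n z + ((h n / κ n : ℝ) : ℂ) *
      (w i n z * w j n z * v (k + 1) n z * v l n z +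
      w i n z * w j n z * v k n z * v (l + 1) n z)) := by
  have hB := H.op
  obtain ⟨e1, he1, g1⟩ := H.up i
  obtain ⟨e2, he2, g2⟩ := H.up j
  obtain ⟨e3, he3, g3⟩ := H'.up k
  obtain ⟨e4, he4, g4⟩ := H'.up l
  have T := quad5 H H' hBU hC k0 i j k l
  have E1 := hE5 H H' hBU hC (LB.mul2 he1.lb (H.bd j).lb) (RP.W H' k0 k) (RP.W H' k0 l)
  have E2 := hE5 H H' hBU hC (LB.mul2 (H.bd i).lb he2.lb) (RP.W H' k0 k) (RP.W H' k0 l)
  have E3 := hE4 H hBU (LB.mul2 he3.lb (H'.bd l).lb) (RP.W H h0 i) (RP.W H h0 j)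
  have E4 := hE4 H hBU (LB.mul2 (H'.bd k).lb he4.lb) (RP.W H h0 i) (RP.W H h0 j)
  refine (T.sub (((E1.add E2).add E3).add E4)).congr fun n z hz => ?_
  have c1 := g1 n z hz
  have c2 := g2 n z hz
  have c3 := g3 n z hz
  have c4 := g4 n z hz
  have d1 := da hB ((H.bd i).sm n) hz
  have d2 := da hB ((H.bd j).sm n) hz
  have d3 := da hB ((H'.bd k).sm n) hz
  have d4 := da hB ((H'.bd l).sm n) hz
  have hk : (κ n : ℂ) ≠ 0 := by exact_mod_cast (H'.hpos n).ne'
  have hr : ((h n / κ n : ℝ) : ℂ) * (κ n : ℂ) = (h n : ℂ) := by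
    push_cast; field_simp
  simp only [DP] at c1 c2 c3 c4 ⊢
  rw [dd_mul (f := fun z => w i n z * w j n z) (g := fun z => v k n z * v l n z) (d1.mul d2)
    (d3.mul d4), dd_mul d1 d2, dd_mul d3 d4]
  linear_combination (-(w j n z * v k n z * v l n z)) * c1 - (w i n z * v k n z * v l n z) * c2
    - ((h n / κ n : ℝ) : ℂ) * (w i n z * w j n z * v l n z) * c3
    - ((h n / κ n : ℝ) : ℂ) * (w i n z * w j n z * v k n z) * c4
    + (w i n z * w j n z * (v l n z * (z.im : ℂ) * dd (v k n) z + v k n z * (z.im : ℂ) * dd (v l n) z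
      - v l n z * e3 n z - v k n z * e4 n z)) * hr

end

end Pool.Agent.R314.JN
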